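import Mathlib

/-!
Definitions for MP_f887f5_ag (hyperplane arrangements over the complex numbers, recursively free
arrangements, ideal of the singular locus and its symbolic powers).
-/

namespace Pool.Agent.RFH

open MvPolynomial

noncomputable section

/-- The polynomial ring in `n` variables over the complex numbers. -/
abbrev S (n : ℕ) : Type := MvPolynomial (Fin n) ℂ

/-- The linear form with coefficient vector `a`. -/
def linForm {n : ℕ} (a : Fin n → ℂ) : S n := ∑ i, C (a i) * X i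

/-- The zero set of the linear form with coefficient vector `a`, a subspace of `ℂ^n`
(a hyperplane if `a ≠ 0`). -/
def hyp {n : ℕ} (a : Fin n → ℂ) : Submodule ℂ (Fin n → ℂ) :=
  LinearMap.ker (∑ i, a i • (LinearMap.proj i : (Fin n → ℂ) →ₗ[ℂ] ℂ))

/-- The module `D(A)` of derivations `θ` of `S` with `θ(α_H) ∈ α_H S` for all `H ∈ A`
(for every linear form `α_H` with kernel `H`). -/
def logDer {n : ℕ} (A : Set (Submodule ℂ (Fin n → ℂ))) :
    Submodule (S n) (Derivation ℂ (S n) (S n)) where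
  carrier := {θ | ∀ a : Fin n → ℂ, a ≠ 0 → hyp a ∈ A → linForm a ∣ θ (linForm a)}
  zero_mem' := by
    intro a _ _
    simp
  add_mem' := by
    intro θ η hθ hη a ha hA
    simpa using dvd_add (hθ a ha hA) (hη a ha hA)
  smul_mem' := by
    intro c θ hθ a ha hA
    simpa using Dvd.dvd.mul_left (hθ a ha hA) c

/-- `A` is free and `m` is its multiset of exponents: the module `D(A)` has a basis of homogeneous
derivations `θ_1, ..., θ_k`, and `m` is the multiset of their polynomial degrees. -/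
def IsFreeWithExp {n : ℕ} (A : Set (Submodule ℂ (Fin n → ℂ))) (m : Multiset ℕ) : Prop :=
  ∃ (k : ℕ) (θ : Fin k → Derivation ℂ (S n) (S n)) (d : Fin k → ℕ),
    LinearIndependent (S n) θ ∧ Submodule.span (S n) (Set.range θ) = logDer A ∧
      (∀ j i, (θ j (X i)).IsHomogeneous (d j)) ∧ m = (Finset.univ : Finset (Fin k)).val.map d

/-- The restriction `A'' = {H ∩ H' : H' ∈ A, H' ≠ H}`, an arrangement in `H`, read in `ℂ^n`
through a linear isomorphism `e : H ≃ ℂ^n`. -/
def restr {n : ℕ} (A : Set (Submodule ℂ (Fin (n + 1) → ℂ))) (H : Submodule ℂ (Fin (n + 1) → ℂ))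
    (e : H ≃ₗ[ℂ] (Fin n → ℂ)) : Set (Submodule ℂ (Fin n → ℂ)) :=
  {L | ∃ H' ∈ A, H' ≠ H ∧ L = (H'.comap H.subtype).map (e : H →ₗ[ℂ] (Fin n → ℂ))}

/-- Inductively free arrangements: the smallest class containing the empty arrangements and
closed under addition `(A', A'') ↦ A` when the exponents of `A''` are contained in those
of `A'`. -/
inductive InductivelyFree : (n : ℕ) → Set (Submodule ℂ (Fin n → ℂ)) → Prop
  | empty (n : ℕ) : InductivelyFree n ∅
  | add (n : ℕ) (A : Set (Submodule ℂ (Fin (n + 1) → ℂ))) (H : Submodule ℂ (Fin (n + 1) → ℂ))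
      (e : H ≃ₗ[ℂ] (Fin n → ℂ)) (m' m'' : Multiset ℕ) :
      H ∈ A → InductivelyFree (n + 1) (A \ {H}) → InductivelyFree n (restr A H e) →
      IsFreeWithExp (A \ {H}) m' → IsFreeWithExp (restr A H e) m'' → m'' ≤ m' →
      InductivelyFree (n + 1) A

/-- Recursively free arrangements: the smallest class containing the empty arrangements and
closed under addition `(A', A'') ↦ A` when `exp A'' ⊆ exp A'` and under deletion
`(A, A'') ↦ A'` when `exp A'' ⊆ exp A`. -/
inductive RecursivelyFree : (n : ℕ) → Set (Submodule ℂ (Fin n → ℂ)) → Prop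
  | empty (n : ℕ) : RecursivelyFree n ∅
  | add (n : ℕ) (A : Set (Submodule ℂ (Fin (n + 1) → ℂ))) (H : Submodule ℂ (Fin (n + 1) → ℂ))
      (e : H ≃ₗ[ℂ] (Fin n → ℂ)) (m' m'' : Multiset ℕ) :
      H ∈ A → RecursivelyFree (n + 1) (A \ {H}) → RecursivelyFree n (restr A H e) →
      IsFreeWithExp (A \ {H}) m' → IsFreeWithExp (restr A H e) m'' → m'' ≤ m' →
      RecursivelyFree (n + 1) A
  | delete (n : ℕ) (A : Set (Submodule ℂ (Fin (n + 1) → ℂ)))
      (H : Submodule ℂ (Fin (n + 1) → ℂ))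
      (e : H ≃ₗ[ℂ] (Fin n → ℂ)) (m m'' : Multiset ℕ) :
      H ∈ A → RecursivelyFree (n + 1) A → RecursivelyFree n (restr A H e) →
      IsFreeWithExp A m → IsFreeWithExp (restr A H e) m'' → m'' ≤ m →
      RecursivelyFree (n + 1) (A \ {H})

/-- The codimension-two subspaces `H ∩ H'`, `H ≠ H'` in `A`; their union is the singular locus. -/
def flats {n : ℕ} (A : Set (Submodule ℂ (Fin n → ℂ))) : Set (Submodule ℂ (Fin n → ℂ)) :=
  {L | ∃ H ∈ A, ∃ H' ∈ A, H ≠ H' ∧ L = H ⊓ H'}

/-- The ideal of all polynomials vanishing on a subspace. -/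
def idealOf {n : ℕ} (L : Submodule ℂ (Fin n → ℂ)) : Ideal (S n) where
  carrier := {f | ∀ v ∈ L, eval v f = 0}
  zero_mem' := by
    intro v _
    simp
  add_mem' := by
    intro f g hf hg v hv
    simp [hf v hv, hg v hv]
  smul_mem' := by
    intro c f hf v hv
    simp [hf v hv]

/-- The radical ideal `J(A)` of the singular locus. -/
def singIdeal {n : ℕ} (A : Set (Submodule ℂ (Fin n → ℂ))) : Ideal (S n) :=
  ⨅ L ∈ flats A, idealOf L

/-- The symbolic power `J(A)^(m) = ⋂ P_L^m`. -/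
def symbPower {n : ℕ} (A : Set (Submodule ℂ (Fin n → ℂ))) (m : ℕ) : Ideal (S n) :=
  ⨅ L ∈ flats A, idealOf L ^ m

/-- The Harbourne-type containment `J(A)^(2r-1) ⊆ J(A)^r`. -/
def Containment {n : ℕ} (A : Set (Submodule ℂ (Fin n → ℂ))) (r : ℕ) : Prop :=
  symbPower A (2 * r - 1) ≤ singIdeal A ^ r

/-- The arrangement in `ℂ^3` (coordinates `w, x, y`) consisting of the nine reflecting planes
of the Coxeter group `B_3`, i.e. `w = 0`, `x = 0`, `y = 0`, `w = ± x`, `w = ± y`, `x = ± y`, and the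
planes `x = t y` for `t ∈ T`. -/
def arr (T : Finset ℂ) : Set (Submodule ℂ (Fin 3 → ℂ)) :=
  {hyp ![1, 0, 0], hyp ![0, 1, 0], hyp ![0, 0, 1], hyp ![1, -1, 0], hyp ![1, 1, 0],
    hyp ![1, 0, -1], hyp ![1, 0, 1], hyp ![0, 1, -1], hyp ![0, 1, 1]} ∪
      (fun t : ℂ => hyp ![0, 1, -t]) '' (T : Set ℂ)

theorem InductivelyFree.recursivelyFree {n : ℕ} {A : Set (Submodule ℂ (Fin n → ℂ))}
    (h : InductivelyFree n A) : RecursivelyFree n A := by
  induction h with
  | empty n => exact RecursivelyFree.empty n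
  | add n A H e m' m'' hA _ _ h1 h2 h3 ih1 ih2 =>
    exact RecursivelyFree.add n A H e m' m'' hA ih1 ih2 h1 h2 h3

theorem mem_hyp {n : ℕ} (a v : Fin n → ℂ) : v ∈ hyp a ↔ ∑ i, a i * v i = 0 := by
  simp [hyp]

theorem mem_hyp3 (a b c : ℂ) (v : Fin 3 → ℂ) :
    v ∈ hyp ![a, b, c] ↔ a * v 0 + b * v 1 + c * v 2 = 0 := by
  simp [mem_hyp, Fin.sum_univ_three]

theorem mem_hyp2 (a b : ℂ) (v : Fin 2 → ℂ) :
    v ∈ hyp ![a, b] ↔ a * v 0 + b * v 1 = 0 := by
  simp [mem_hyp, Fin.sum_univ_two]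

theorem mem_idealOf {n : ℕ} (L : Submodule ℂ (Fin n → ℂ)) (f : S n) :
    f ∈ idealOf L ↔ ∀ v ∈ L, eval v f = 0 := Iff.rfl

end

end Pool.Agent.RFH
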