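import Pool.Agent.RFH.Sym

namespace Pool.Agent.RFH

open MvPolynomial

noncomputable section

/-- restriction to the line through `(r, a, b)` -/
def ev (r a b : ℂ) : S 3 →ₐ[ℂ] Polynomial ℂ :=
  aeval ![Polynomial.C r * Polynomial.X, Polynomial.C a * Polynomial.X,
    Polynomial.C b * Polynomial.X]

def psi (a b : ℂ) : S 2 →ₐ[ℂ] Polynomial ℂ :=
  aeval ![Polynomial.C a * Polynomial.X, Polynomial.C b * Polynomial.X]

theorem ev_X0 (r a b : ℂ) : ev r a b (X 0) = Polynomial.C r * Polynomial.X := by simp [ev]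
theorem ev_X1 (r a b : ℂ) : ev r a b (X 1) = Polynomial.C a * Polynomial.X := by simp [ev]
theorem ev_X2 (r a b : ℂ) : ev r a b (X 2) = Polynomial.C b * Polynomial.X := by simp [ev]
theorem ev_C (r a b c : ℂ) : ev r a b (C c) = Polynomial.C c := by
  simp [ev]
theorem psi_X0 (a b : ℂ) : psi a b (X 0) = Polynomial.C a * Polynomial.X := by simp [psi]
theorem psi_X1 (a b : ℂ) : psi a b (X 1) = Polynomial.C b * Polynomial.X := by simp [psi]
theorem psi_C (a b c : ℂ) : psi a b (C c) = Polynomial.C c := by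
  simp [psi]

theorem eval_ev (r a b l : ℂ) (f : S 3) :
    (ev r a b f).eval l = eval ![r * l, a * l, b * l] f := by
  induction f using MvPolynomial.induction_on with
  | C c => simp [ev_C]
  | add p q hp hq => simp [hp, hq]
  | mul_X p i hp =>
    fin_cases i
    · simp [hp, ev_X0]
    · simp [hp, ev_X1]
    · simp [hp, ev_X2]

theorem ev_eq (r a b : ℂ) (f : S 3) :
    ev r a b f = ((finSuccEquiv ℂ 2 f).map (psi a b : S 2 →+* Polynomial ℂ)).eval
      (Polynomial.C r * Polynomial.X) := by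
  induction f using MvPolynomial.induction_on with
  | C c =>
    rw [ev_C, show (C c : S 3) = algebraMap ℂ (S 3) c from rfl, AlgEquiv.commutes]
    rw [Polynomial.algebraMap_apply, Polynomial.map_C, Polynomial.eval_C]
    simp
  | add p q hp hq => simp [hp, hq, Polynomial.map_add]
  | mul_X p i hp =>
    rw [map_mul, map_mul, Polynomial.map_mul, Polynomial.eval_mul, hp]
    congr 1
    fin_cases i
    · simp [ev_X0, finSuccEquiv_X_zero]
    · have : (finSuccEquiv ℂ 2) (X 1) = Polynomial.C (X 0) := finSuccEquiv_X_succ (j := 0)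
      simp [ev_X1, this, psi_X0]
    · have : (finSuccEquiv ℂ 2) (X 2) = Polynomial.C (X 1) := finSuccEquiv_X_succ (j := 1)
      simp [ev_X2, this, psi_X1]

theorem ev_monomial (r a b : ℂ) (s : Fin 3 →₀ ℕ) (c : ℂ) :
    ev r a b (monomial s c) =
      Polynomial.C (c * (r ^ s 0 * a ^ s 1 * b ^ s 2)) * Polynomial.X ^ (s 0 + s 1 + s 2) := by
  rw [ev, aeval_monomial, Finsupp.prod_fintype _ _ (by intro i; simp)]
  simp only [Fin.prod_univ_three, Matrix.cons_val_zero, Matrix.cons_val_one, Matrix.cons_val]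
  simp only [mul_pow, map_mul, map_pow, pow_add, Polynomial.algebraMap_apply, Algebra.algebraMap_self,
    RingHom.id_apply]
  ring

theorem coeff_ev_monomial (r a b : ℂ) (s : Fin 3 →₀ ℕ) (c : ℂ) (n : ℕ) :
    (ev r a b (monomial s c)).coeff n =
      if n = s 0 + s 1 + s 2 then c * (r ^ s 0 * a ^ s 1 * b ^ s 2) else 0 := by
  rw [ev_monomial, Polynomial.coeff_C_mul_X_pow]

theorem ident4 (f : S 3) :
    ((ev 1 1 1 f).coeff 4 + (ev (-1) 1 1 f).coeff 4 - 2 * (ev 0 1 1 f).coeff 4) +
    ((ev 1 1 (-1) f).coeff 4 + (ev (-1) 1 (-1) f).coeff 4 - 2 * (ev 0 1 (-1) f).coeff 4)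
    - 2 * ((ev 1 1 0 f).coeff 4 + (ev (-1) 1 0 f).coeff 4 - 2 * (ev 0 1 0 f).coeff 4)
    - 2 * ((ev 1 0 1 f).coeff 4 + (ev (-1) 0 1 f).coeff 4 - 2 * (ev 0 0 1 f).coeff 4)
    = -4 * (ev 1 0 0 f).coeff 4 := by
  induction f using MvPolynomial.induction_on' with
  | monomial s c =>
    simp only [coeff_ev_monomial]
    split_ifs with h
    · obtain ⟨i, hi⟩ : ∃ i, s 0 = i := ⟨_, rfl⟩
      obtain ⟨j, hj⟩ : ∃ j, s 1 = j := ⟨_, rfl⟩
      obtain ⟨k, hk⟩ : ∃ k, s 2 = k := ⟨_, rfl⟩
      rw [hi, hj, hk] at h ⊢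
      have hi4 : i ≤ 4 := by omega
      have hj4 : j ≤ 4 := by omega
      have hk4 : k = 4 - i - j := by omega
      subst hk4
      interval_cases i <;> interval_cases j <;> first | omega | (norm_num; try ring)
    · ring
  | add p q hp hq =>
    simp only [map_add, Polynomial.coeff_add]
    linear_combination hp + hq

theorem ident3 (f : S 3) :
    ((ev 1 1 1 f).coeff 3 - (ev (-1) 1 1 f).coeff 3) +
    ((ev 1 1 (-1) f).coeff 3 - (ev (-1) 1 (-1) f).coeff 3)
    - 2 * ((ev 1 1 0 f).coeff 3 - (ev (-1) 1 0 f).coeff 3)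
    - 2 * ((ev 1 0 1 f).coeff 3 - (ev (-1) 0 1 f).coeff 3)
    = -4 * (ev 1 0 0 f).coeff 3 := by
  induction f using MvPolynomial.induction_on' with
  | monomial s c =>
    simp only [coeff_ev_monomial]
    split_ifs with h
    · obtain ⟨i, hi⟩ : ∃ i, s 0 = i := ⟨_, rfl⟩
      obtain ⟨j, hj⟩ : ∃ j, s 1 = j := ⟨_, rfl⟩
      obtain ⟨k, hk⟩ : ∃ k, s 2 = k := ⟨_, rfl⟩
      rw [hi, hj, hk] at h ⊢
      have hi4 : i ≤ 3 := by omega
      have hj4 : j ≤ 3 := by omega
      have hk4 : k = 3 - i - j := by omega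
      subst hk4
      interval_cases i <;> interval_cases j <;> first | omega | (norm_num; try ring)
    · ring
  | add p q hp hq =>
    simp only [map_add, Polynomial.coeff_add]
    linear_combination hp + hq

theorem ident2 (f : S 3) :
    (ev 1 1 0 f).coeff 2 + (ev (-1) 1 0 f).coeff 2 - 2 * (ev 0 1 0 f).coeff 2
    = 2 * (ev 1 0 0 f).coeff 2 := by
  induction f using MvPolynomial.induction_on' with
  | monomial s c =>
    simp only [coeff_ev_monomial]
    split_ifs with h
    · obtain ⟨i, hi⟩ : ∃ i, s 0 = i := ⟨_, rfl⟩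
      obtain ⟨j, hj⟩ : ∃ j, s 1 = j := ⟨_, rfl⟩
      obtain ⟨k, hk⟩ : ∃ k, s 2 = k := ⟨_, rfl⟩
      rw [hi, hj, hk] at h ⊢
      have hi4 : i ≤ 2 := by omega
      have hj4 : j ≤ 2 := by omega
      have hk4 : k = 2 - i - j := by omega
      subst hk4
      interval_cases i <;> interval_cases j <;> first | omega | (norm_num; try ring)
    · ring
  | add p q hp hq =>
    simp only [map_add, Polynomial.coeff_add]
    linear_combination hp + hq

theorem ident1 (f : S 3) :
    (ev 1 1 0 f).coeff 1 - (ev (-1) 1 0 f).coeff 1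
    = 2 * (ev 1 0 0 f).coeff 1 := by
  induction f using MvPolynomial.induction_on' with
  | monomial s c =>
    simp only [coeff_ev_monomial]
    split_ifs with h
    · obtain ⟨i, hi⟩ : ∃ i, s 0 = i := ⟨_, rfl⟩
      obtain ⟨j, hj⟩ : ∃ j, s 1 = j := ⟨_, rfl⟩
      obtain ⟨k, hk⟩ : ∃ k, s 2 = k := ⟨_, rfl⟩
      rw [hi, hj, hk] at h ⊢
      have hi4 : i ≤ 1 := by omega
      have hj4 : j ≤ 1 := by omega
      have hk4 : k = 1 - i - j := by omega
      subst hk4
      interval_cases i <;> interval_cases j <;> first | omega | (norm_num; try ring)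
    · ring
  | add p q hp hq =>
    simp only [map_add, Polynomial.coeff_add]
    linear_combination hp + hq

theorem ident0 (f : S 3) :
    (ev 1 1 0 f).coeff 0 = (ev 1 0 0 f).coeff 0 := by
  induction f using MvPolynomial.induction_on' with
  | monomial s c =>
    simp only [coeff_ev_monomial]
    split_ifs with h
    · have h0 : s 0 = 0 := by omega
      have h1 : s 1 = 0 := by omega
      have h2 : s 2 = 0 := by omega
      simp [h0, h1, h2]
    · rfl
  | add p q hp hq =>
    simp only [map_add, Polynomial.coeff_add]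
    linear_combination hp + hq

end

end Pool.Agent.RFH
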