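import Pool.Agent.RFH.Main1

namespace Pool.Agent.RFH

open MvPolynomial

noncomputable section

/-- polynomials vanishing on the thirteen lines of `B_3` -/
def J0 : Ideal (S 3) where
  carrier := {r | (∀ p ∈ Z0, ev p.1 p.2.1 p.2.2 r = 0) ∧ ev 1 0 0 r = 0}
  zero_mem' := by simp
  add_mem' := by
    rintro a b ⟨ha, ha'⟩ ⟨hb, hb'⟩
    refine ⟨fun p hp => ?_, ?_⟩
    · rw [map_add, ha p hp, hb p hp, add_zero]
    · rw [map_add, ha', hb', add_zero]
  smul_mem' := by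
    rintro c a ⟨ha, ha'⟩
    refine ⟨fun p hp => ?_, ?_⟩
    · rw [smul_eq_mul, map_mul, ha p hp, mul_zero]
    · rw [smul_eq_mul, map_mul, ha', mul_zero]

theorem gg_ne_zero : gg ≠ 0 := by
  intro h
  have h1 := ev_gg 1 0 0
  rw [h, map_zero] at h1
  have h2 := congrArg (fun p => Polynomial.coeff p 5) h1
  simp at h2

/-- every element of the square of the singular ideal has a normal form -/
theorem sq_decomp (T : Finset ℂ) (h0 : (0 : ℂ) ∉ T) (h1 : (1 : ℂ) ∉ T) (h2 : (-1 : ℂ) ∉ T)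
    (f : S 3) (hf : f ∈ singIdeal (arr T) ^ 2) :
    ∃ a b c : S 3, f = gg * gg * a + gg * eT T * b + eT T * eT T * c ∧ b ∈ J0 ∧ c ∈ J0 := by
  rw [pow_two] at hf
  refine Submodule.mul_induction_on hf ?_ ?_
  · intro f1 hf1 f2 hf2
    obtain ⟨u1, r1, e1, k1, k1'⟩ := decomp T h0 h1 h2 f1 hf1
    obtain ⟨u2, r2, e2, k2, k2'⟩ := decomp T h0 h1 h2 f2 hf2
    have m1 : r1 ∈ J0 := ⟨k1, k1'⟩
    have m2 : r2 ∈ J0 := ⟨k2, k2'⟩
    refine ⟨u1 * u2, u1 * r2 + u2 * r1, r1 * r2, ?_, ?_, ?_⟩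
    · rw [e1, e2]; ring
    · exact J0.add_mem (J0.mul_mem_left _ m2) (J0.mul_mem_left _ m1)
    · exact J0.mul_mem_left _ m2
  · rintro f1 f2 ⟨a1, b1, c1, e1, m1, n1⟩ ⟨a2, b2, c2, e2, m2, n2⟩
    refine ⟨a1 + a2, b1 + b2, c1 + c2, ?_, J0.add_mem m1 m2, J0.add_mem n1 n2⟩
    rw [e1, e2]; ring

theorem bigG_not_mem (T : Finset ℂ) (m : ℕ)
    (h0 : (0 : ℂ) ∉ T) (h1 : (1 : ℂ) ∉ T) (h2 : (-1 : ℂ) ∉ T) :
    bigG T m ∉ singIdeal (arr T) ^ 2 := by
  intro hmem
  have key : ∀ t ∈ T, t ≠ 0 ∧ t ≠ 1 ∧ t ≠ -1 := by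
    intro t ht
    refine ⟨?_, ?_, ?_⟩ <;> rintro rfl <;> contradiction
  obtain ⟨a, b, c, hG, hb, hc⟩ := sq_decomp T h0 h1 h2 _ hmem
  have heR : eR T ≠ 0 := by
    intro h
    have := psi_eR 1 0 T (by intro t _; simp)
    rw [h] at this
    simp at this
  -- `gg` divides `c`
  have hdvd : gg ∣ c := by
    have e1 : eT T * eT T * c =
        gg * (eT T * (eT T * qq + 3 * gg * ss (gam T) m) - gg * a - eT T * b) := by
      have : bigG T m = gg * (eT T * (eT T * qq + 3 * gg * ss (gam T) m)) := by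
        unfold bigG; ring
      rw [this] at hG
      linear_combination -hG
    have e2 : gP ∣ (eR T * eR T) • finSuccEquiv ℂ 2 c := by
      refine ⟨finSuccEquiv ℂ 2 (eT T * (eT T * qq + 3 * gg * ss (gam T) m) - gg * a - eT T * b), ?_⟩
      rw [← fse_gg, ← map_mul, ← e1, map_mul, map_mul, fse_eT, Polynomial.smul_eq_C_mul,
        Polynomial.C_mul]
    have e3 := (Polynomial.modByMonic_eq_zero_iff_dvd gP_monic).mpr e2
    rw [Polynomial.smul_modByMonic] at e3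
    have e4 : (finSuccEquiv ℂ 2 c) %ₘ gP = 0 := by
      rcases smul_eq_zero.mp e3 with h | h
      · exact absurd h (mul_ne_zero heR heR)
      · exact h
    obtain ⟨d, hd⟩ := (Polynomial.modByMonic_eq_zero_iff_dvd gP_monic).mp e4
    refine ⟨(finSuccEquiv ℂ 2).symm d, ?_⟩
    apply (finSuccEquiv ℂ 2).injective
    rw [map_mul, fse_gg, AlgEquiv.apply_symm_apply, hd]
  obtain ⟨c', rfl⟩ := hdvd
  have hrel : eT T * eT T * c' = eT T * (eT T * qq + 3 * gg * ss (gam T) m) - gg * a - eT T * b := by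
    apply mul_left_cancel₀ gg_ne_zero
    have : bigG T m = gg * (eT T * (eT T * qq + 3 * gg * ss (gam T) m)) := by
      unfold bigG; ring
    rw [this] at hG
    linear_combination -hG
  -- values of `c'` on the twelve lines
  have hval : ∀ p ∈ Z0, ev p.1 p.2.1 p.2.2 c' = ev p.1 p.2.1 p.2.2 qq := by
    intro p hp
    have e1 := congrArg (ev p.1 p.2.1 p.2.2) hrel
    simp only [map_mul, map_add, map_sub] at e1
    have e2 : ev p.1 p.2.1 p.2.2 gg = 0 := by
      rw [ev_gg]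
      have e2 : p.1 * (p.1 ^ 2 - p.2.1 ^ 2) * (p.1 ^ 2 - p.2.2 ^ 2) = 0 := by
        simp only [Z0, Set.mem_insert_iff, Set.mem_singleton_iff] at hp
        rcases hp with rfl | rfl | rfl | rfl | rfl | rfl | rfl | rfl | rfl | rfl | rfl | rfl <;>
          norm_num
      rw [e2]; simp
    rw [e2, hb.1 p hp] at e1
    have e3 : ev p.1 p.2.1 p.2.2 (eT T) ≠ 0 := by
      rw [ev_eT]
      apply psi_eR
      intro t ht
      obtain ⟨k0, k1, k2⟩ := key t ht
      have k1' : (1 : ℂ) - t ≠ 0 := sub_ne_zero.mpr (Ne.symm k1)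
      have k2' : (1 : ℂ) + t ≠ 0 := by
        intro h; exact k2 (by linear_combination h)
      simp only [Z0, Set.mem_insert_iff, Set.mem_singleton_iff] at hp
      rcases hp with rfl | rfl | rfl | rfl | rfl | rfl | rfl | rfl | rfl | rfl | rfl | rfl <;>
        simp [k0, k1', k2']
    apply mul_left_cancel₀ (mul_ne_zero e3 e3)
    linear_combination e1
  -- vanishing of `c'` at the centre
  have hO : ev 1 0 0 c' = 0 := by
    have e1 := hc.2
    rw [map_mul, ev_gg] at e1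
    refine (mul_eq_zero.mp e1).resolve_left ?_
    simp
  have z : ∀ a b c : ℂ, (a, b, c) ∈ Z0 → ev a b c c' = ev a b c qq := fun a b c h => hval (a, b, c) h
  have i4 := ident4 c'
  rw [z 0 0 1 (by simp [Z0]), z 1 0 1 (by simp [Z0]), z (-1) 0 1 (by simp [Z0]),
    z 0 1 0 (by simp [Z0]), z 1 1 0 (by simp [Z0]), z (-1) 1 0 (by simp [Z0]),
    z 0 1 1 (by simp [Z0]), z 1 1 1 (by simp [Z0]), z (-1) 1 1 (by simp [Z0]),
    z 0 1 (-1) (by simp [Z0]), z 1 1 (-1) (by simp [Z0]), z (-1) 1 (-1) (by simp [Z0]), hO] at i4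
  simp only [ev_qq, Polynomial.coeff_C_mul, Polynomial.coeff_X_pow, Polynomial.coeff_zero] at i4
  norm_num at i4

end

end Pool.Agent.RFH
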