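import Pool.Agent.RFH.Sym

namespace Pool.Agent.RFH

open MvPolynomial

noncomputable section

theorem L_O (L : Submodule ℂ (Fin 3 → ℂ)) (T : Finset ℂ) (m : ℕ) (hT : 3 ≤ T.card)
    (h : ∀ v ∈ L, v 1 = 0 ∧ v 2 = 0) : bigG T m ∈ idealOf L ^ 3 := by
  refine close_O _ T m hT ?_ ?_
  · intro v hv; simpa using (h v hv).1
  · intro v hv; simpa using (h v hv).2

theorem L_P (L : Submodule ℂ (Fin 3 → ℂ)) (T : Finset ℂ) (m : ℕ)
    (h : ∀ v ∈ L, v 0 = 0 ∧ v 1 = 0) : bigG T m ∈ idealOf L ^ 3 := by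
  refine close_P _ T m ?_ ?_
  · intro v hv; simpa using (h v hv).1
  · intro v hv; simpa using (h v hv).2

theorem L_Q (L : Submodule ℂ (Fin 3 → ℂ)) (T : Finset ℂ) (m : ℕ)
    (h : ∀ v ∈ L, v 0 = 0 ∧ v 2 = 0) : bigG T m ∈ idealOf L ^ 3 := by
  refine close_Q _ T m ?_ ?_
  · intro v hv; simpa using (h v hv).1
  · intro v hv; simpa using (h v hv).2

theorem L_c (L : Submodule ℂ (Fin 3 → ℂ)) (T : Finset ℂ) (m : ℕ)
    (h : ∀ v ∈ L, v 0 ^ 2 = v 1 ^ 2 ∧ v 0 ^ 2 = v 2 ^ 2) : bigG T m ∈ idealOf L ^ 3 := by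
  refine close_c _ T m ?_ ?_
  · intro v hv; simpa [sub_eq_zero] using (h v hv).1
  · intro v hv; simpa [sub_eq_zero] using (h v hv).2

theorem L_dx (L : Submodule ℂ (Fin 3 → ℂ)) (T : Finset ℂ) (m : ℕ) (hT : T.card = m + 3)
    (h : ∀ v ∈ L, v 1 = 0 ∧ v 0 ^ 2 = v 2 ^ 2) : bigG T m ∈ idealOf L ^ 3 := by
  refine close_dx _ T m hT ?_ ?_
  · intro v hv; simpa using (h v hv).1
  · intro v hv; simpa [sub_eq_zero] using (h v hv).2

theorem L_dy (L : Submodule ℂ (Fin 3 → ℂ)) (T : Finset ℂ) (m : ℕ) (hT : T.card = m + 3)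
    (h : ∀ v ∈ L, v 2 = 0 ∧ v 0 ^ 2 = v 1 ^ 2) : bigG T m ∈ idealOf L ^ 3 := by
  refine close_dy _ T m hT ?_ ?_
  · intro v hv; simpa using (h v hv).1
  · intro v hv; simpa [sub_eq_zero] using (h v hv).2

theorem L_dw (L : Submodule ℂ (Fin 3 → ℂ)) (T : Finset ℂ) (m : ℕ)
    (h : ∀ v ∈ L, v 0 = 0 ∧ v 1 ^ 2 = v 2 ^ 2) : bigG T m ∈ idealOf L ^ 3 := by
  refine close_dw _ T m ?_ ?_
  · intro v hv; simpa using (h v hv).1
  · intro v hv; simpa [sub_eq_zero] using (h v hv).2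

theorem L_ET (L : Submodule ℂ (Fin 3 → ℂ)) (T : Finset ℂ) (m : ℕ) (t : ℂ) (ht : t ∈ T)
    (h : ∀ v ∈ L, v 1 = t * v 2 ∧ v 0 * (v 0 ^ 2 - v 1 ^ 2) * (v 0 ^ 2 - v 2 ^ 2) = 0) :
    bigG T m ∈ idealOf L ^ 3 := by
  refine close_ET _ T m ?_ ?_
  · have h1 : (X 1 - C t * X 2 : S 3) ∈ idealOf L := by
      intro v hv; simpa [sub_eq_zero] using (h v hv).1
    exact Ideal.mem_of_dvd _ (Finset.dvd_prod_of_mem _ ht) h1
  · intro v hv
    simpa [gg] using (h v hv).2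

/-- the defining equation of a member of `arr T` (nine constant cases) -/
def nine : List (Fin 3 → ℂ) :=
  [![1, 0, 0], ![0, 1, 0], ![0, 0, 1], ![1, -1, 0], ![1, 1, 0],
    ![1, 0, -1], ![1, 0, 1], ![0, 1, -1], ![0, 1, 1]]

theorem arr_cases {T : Finset ℂ} {H : Submodule ℂ (Fin 3 → ℂ)} (h : H ∈ arr T) :
    (H = hyp ![1, 0, 0] ∨ H = hyp ![0, 1, 0] ∨ H = hyp ![0, 0, 1] ∨ H = hyp ![1, -1, 0] ∨
      H = hyp ![1, 1, 0] ∨ H = hyp ![1, 0, -1] ∨ H = hyp ![1, 0, 1] ∨ H = hyp ![0, 1, -1] ∨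
      H = hyp ![0, 1, 1]) ∨ ∃ t ∈ T, H = hyp ![0, 1, -t] := by
  rcases h with h | ⟨t, ht, rfl⟩
  · left
    simpa using h
  · right
    exact ⟨t, by simpa using ht, rfl⟩

theorem mem_inf3 (a b c a' b' c' : ℂ) (v : Fin 3 → ℂ) (hv : v ∈ hyp ![a, b, c] ⊓ hyp ![a', b', c']) :
    a * v 0 + b * v 1 + c * v 2 = 0 ∧ a' * v 0 + b' * v 1 + c' * v 2 = 0 := by
  obtain ⟨h1, h2⟩ := Submodule.mem_inf.mp hv
  exact ⟨(mem_hyp3 _ _ _ _).mp h1, (mem_hyp3 _ _ _ _).mp h2⟩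

theorem pair_const (T : Finset ℂ) (m : ℕ) (hT : T.card = m + 3)
    (H H' : Submodule ℂ (Fin 3 → ℂ)) (hne : H ≠ H')
    (h : H = hyp ![1, 0, 0] ∨ H = hyp ![0, 1, 0] ∨ H = hyp ![0, 0, 1] ∨ H = hyp ![1, -1, 0] ∨
      H = hyp ![1, 1, 0] ∨ H = hyp ![1, 0, -1] ∨ H = hyp ![1, 0, 1] ∨ H = hyp ![0, 1, -1] ∨
      H = hyp ![0, 1, 1])
    (h' : H' = hyp ![1, 0, 0] ∨ H' = hyp ![0, 1, 0] ∨ H' = hyp ![0, 0, 1] ∨ H' = hyp ![1, -1, 0] ∨
      H' = hyp ![1, 1, 0] ∨ H' = hyp ![1, 0, -1] ∨ H' = hyp ![1, 0, 1] ∨ H' = hyp ![0, 1, -1] ∨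
      H' = hyp ![0, 1, 1]) :
    bigG T m ∈ idealOf (H ⊓ H') ^ 3 := by
  have hT3 : 3 ≤ T.card := by omega
  rcases h with rfl | rfl | rfl | rfl | rfl | rfl | rfl | rfl | rfl <;>
  rcases h' with rfl | rfl | rfl | rfl | rfl | rfl | rfl | rfl | rfl <;>
  first
  | exact absurd rfl hne
  | (refine L_O _ T m hT3 (fun v hv => ?_)
     have h3 := mem_inf3 _ _ _ _ _ _ v hv
     clear hne hv
     constructor <;> grind)
  | (refine L_P _ T m (fun v hv => ?_)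
     have h3 := mem_inf3 _ _ _ _ _ _ v hv
     clear hne hv
     constructor <;> grind)
  | (refine L_Q _ T m (fun v hv => ?_)
     have h3 := mem_inf3 _ _ _ _ _ _ v hv
     clear hne hv
     constructor <;> grind)
  | (refine L_c _ T m (fun v hv => ?_)
     have h3 := mem_inf3 _ _ _ _ _ _ v hv
     clear hne hv
     constructor <;> grind)
  | (refine L_dx _ T m hT (fun v hv => ?_)
     have h3 := mem_inf3 _ _ _ _ _ _ v hv
     clear hne hv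
     constructor <;> grind)
  | (refine L_dy _ T m hT (fun v hv => ?_)
     have h3 := mem_inf3 _ _ _ _ _ _ v hv
     clear hne hv
     constructor <;> grind)
  | (refine L_dw _ T m (fun v hv => ?_)
     have h3 := mem_inf3 _ _ _ _ _ _ v hv
     clear hne hv
     constructor <;> grind)

theorem pair_mixed (T : Finset ℂ) (m : ℕ) (hT : T.card = m + 3) (t : ℂ) (ht : t ∈ T)
    (ht0 : t ≠ 0) (ht1 : t ≠ 1) (ht2 : t ≠ -1)
    (H : Submodule ℂ (Fin 3 → ℂ))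
    (h : H = hyp ![1, 0, 0] ∨ H = hyp ![0, 1, 0] ∨ H = hyp ![0, 0, 1] ∨ H = hyp ![1, -1, 0] ∨
      H = hyp ![1, 1, 0] ∨ H = hyp ![1, 0, -1] ∨ H = hyp ![1, 0, 1] ∨ H = hyp ![0, 1, -1] ∨
      H = hyp ![0, 1, 1]) :
    bigG T m ∈ idealOf (H ⊓ hyp ![0, 1, -t]) ^ 3 := by
  have hT3 : 3 ≤ T.card := by omega
  have k1 : t - 1 ≠ 0 := sub_ne_zero.mpr ht1
  have k2 : t + 1 ≠ 0 := by
    intro h0; exact ht2 (by linear_combination h0)
  rcases h with rfl | rfl | rfl | rfl | rfl | rfl | rfl | rfl | rfl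
  · refine L_ET _ T m t ht (fun v hv => ?_)
    obtain ⟨h1, h2⟩ := mem_inf3 _ _ _ _ _ _ v hv
    constructor <;> grind
  · refine L_O _ T m hT3 (fun v hv => ?_)
    obtain ⟨h1, h2⟩ := mem_inf3 _ _ _ _ _ _ v hv
    have h3 : v 1 = 0 := by linear_combination h1
    have h4 : t * v 2 = 0 := by linear_combination h3 - h2
    exact ⟨h3, (mul_eq_zero.mp h4).resolve_left ht0⟩
  · refine L_O _ T m hT3 (fun v hv => ?_)
    obtain ⟨h1, h2⟩ := mem_inf3 _ _ _ _ _ _ v hv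
    have h3 : v 2 = 0 := by linear_combination h1
    have h4 : v 1 = 0 := by rw [h3] at h2; linear_combination h2
    exact ⟨h4, h3⟩
  · refine L_ET _ T m t ht (fun v hv => ?_)
    obtain ⟨h1, h2⟩ := mem_inf3 _ _ _ _ _ _ v hv
    constructor <;> grind
  · refine L_ET _ T m t ht (fun v hv => ?_)
    obtain ⟨h1, h2⟩ := mem_inf3 _ _ _ _ _ _ v hv
    constructor <;> grind
  · refine L_ET _ T m t ht (fun v hv => ?_)
    obtain ⟨h1, h2⟩ := mem_inf3 _ _ _ _ _ _ v hv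
    constructor <;> grind
  · refine L_ET _ T m t ht (fun v hv => ?_)
    obtain ⟨h1, h2⟩ := mem_inf3 _ _ _ _ _ _ v hv
    constructor <;> grind
  · refine L_O _ T m hT3 (fun v hv => ?_)
    obtain ⟨h1, h2⟩ := mem_inf3 _ _ _ _ _ _ v hv
    have h4 : (t - 1) * v 2 = 0 := by linear_combination h1 - h2
    have h5 : v 2 = 0 := (mul_eq_zero.mp h4).resolve_left k1
    exact ⟨by linear_combination h1 + h5, h5⟩
  · refine L_O _ T m hT3 (fun v hv => ?_)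
    obtain ⟨h1, h2⟩ := mem_inf3 _ _ _ _ _ _ v hv
    have h4 : (t + 1) * v 2 = 0 := by linear_combination h1 - h2
    have h5 : v 2 = 0 := (mul_eq_zero.mp h4).resolve_left k2
    exact ⟨by linear_combination h1 - h5, h5⟩

theorem pair_TT (T : Finset ℂ) (m : ℕ) (hT : T.card = m + 3) (t t' : ℂ) (hne : t ≠ t') :
    bigG T m ∈ idealOf (hyp ![0, 1, -t] ⊓ hyp ![0, 1, -t']) ^ 3 := by
  have hT3 : 3 ≤ T.card := by omega
  refine L_O _ T m hT3 (fun v hv => ?_)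
  obtain ⟨h1, h2⟩ := mem_inf3 _ _ _ _ _ _ v hv
  have h4 : (t - t') * v 2 = 0 := by linear_combination h2 - h1
  have h5 : v 2 = 0 := (mul_eq_zero.mp h4).resolve_left (sub_ne_zero.mpr hne)
  exact ⟨by linear_combination h1 + t * h5, h5⟩

theorem bigG_mem (T : Finset ℂ) (m : ℕ) (hT : T.card = m + 3)
    (h0 : (0 : ℂ) ∉ T) (h1 : (1 : ℂ) ∉ T) (h2 : (-1 : ℂ) ∉ T) :
    bigG T m ∈ symbPower (arr T) 3 := by
  have key : ∀ t ∈ T, t ≠ 0 ∧ t ≠ 1 ∧ t ≠ -1 := by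
    intro t ht
    refine ⟨?_, ?_, ?_⟩ <;> rintro rfl <;> contradiction
  unfold symbPower
  simp only [Submodule.mem_iInf]
  rintro L ⟨H, hH, H', hH', hne, rfl⟩
  rcases arr_cases hH with c1 | ⟨t, ht, rfl⟩ <;> rcases arr_cases hH' with c2 | ⟨t', ht', rfl⟩
  · exact pair_const T m hT H H' hne c1 c2
  · obtain ⟨k0, k1, k2⟩ := key t' ht'
    exact pair_mixed T m hT t' ht' k0 k1 k2 H c1
  · obtain ⟨k0, k1, k2⟩ := key t ht
    rw [inf_comm]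
    exact pair_mixed T m hT t ht k0 k1 k2 H' c2
  · refine pair_TT T m hT t t' ?_
    rintro rfl
    exact hne rfl

end

end Pool.Agent.RFH
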