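import Pool.Agent.RFH.IndFree
import Pool.Agent.RFH.Main2
import Pool.Agent.RFH.SymMem

namespace Pool.Agent.RFH

open MvPolynomial

noncomputable section

theorem pderiv0_eT (T : Finset ℂ) : pderiv 0 (eT T) = 0 := by
  classical
  unfold eT
  induction T using Finset.induction_on with
  | empty => simp
  | insert t T ht ih =>
    rw [Finset.prod_insert ht, Derivation.leibniz, ih, map_sub, pderiv_X, Derivation.leibniz,
      pderiv_C, pderiv_X]
    simp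

theorem eT_hom (T : Finset ℂ) : (eT T).IsHomogeneous T.card := eTT_hom T

theorem eT_euler (T : Finset ℂ) : X 1 * pderiv 1 (eT T) + X 2 * pderiv 2 (eT T) =
    C (T.card : ℂ) * eT T := by
  have h := (eT_hom T).sum_X_mul_pderiv
  rw [Fin.sum_univ_three, pderiv0_eT, mul_zero, zero_add] at h
  rw [h, nsmul_eq_mul]
  simp

/-- directions of all pencil lines but `y = 0` -/
def dirs (T : Finset ℂ) [DecidableEq ℂ] : Finset ℂ := insert 0 (insert 1 (insert (-1) T))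

theorem Q3_dirs (T : Finset ℂ) [DecidableEq ℂ] (h0 : (0 : ℂ) ∉ T) (h1 : (1 : ℂ) ∉ T)
    (h2 : (-1 : ℂ) ∉ T) : Q3 (dirs T) = X 1 * X 2 * (X 1 ^ 2 - X 2 ^ 2) * eT T := by
  unfold Q3 dirs eT
  rw [Finset.prod_insert, Finset.prod_insert, Finset.prod_insert h2]
  · simp only [map_zero, map_one, map_neg]
    ring
  · simp only [Finset.mem_insert, not_or]
    exact ⟨by norm_num, h1⟩
  · simp only [Finset.mem_insert, not_or]
    exact ⟨by norm_num, by norm_num, h0⟩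

theorem card_dirs (T : Finset ℂ) [DecidableEq ℂ] (h0 : (0 : ℂ) ∉ T) (h1 : (1 : ℂ) ∉ T)
    (h2 : (-1 : ℂ) ∉ T) : (dirs T).card = T.card + 3 := by
  unfold dirs
  rw [Finset.card_insert_of_notMem, Finset.card_insert_of_notMem, Finset.card_insert_of_notMem h2]
  · simp only [Finset.mem_insert, not_or]
    exact ⟨by norm_num, h1⟩
  · simp only [Finset.mem_insert, not_or]
    exact ⟨by norm_num, by norm_num, h0⟩

def alp (T : Finset ℂ) : S 3 :=
  (X 1 ^ 2 - 3 * X 2 ^ 2) * eT T + X 2 * (X 1 ^ 2 - X 2 ^ 2) * pderiv 2 (eT T)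
    - C ((T.card : ℂ) + 4) * X 1 ^ 2 * eT T

theorem pderiv2_Q3 (T : Finset ℂ) [DecidableEq ℂ] (h0 : (0 : ℂ) ∉ T) (h1 : (1 : ℂ) ∉ T)
    (h2 : (-1 : ℂ) ∉ T) : pderiv 2 (Q3 (dirs T)) =
      X 1 * (alp T + C ((T.card : ℂ) + 4) * X 1 ^ 2 * eT T) := by
  rw [Q3_dirs T h0 h1 h2]
  simp only [Derivation.leibniz, map_sub, Derivation.leibniz_pow, pderiv_X, smul_eq_mul,
    nsmul_eq_mul]
  unfold alp
  simp
  ring

theorem pderiv1_Q3 (T : Finset ℂ) [DecidableEq ℂ] (h0 : (0 : ℂ) ∉ T) (h1 : (1 : ℂ) ∉ T)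
    (h2 : (-1 : ℂ) ∉ T) : - pderiv 1 (Q3 (dirs T)) =
      X 2 * (alp T + C ((T.card : ℂ) + 4) * X 2 ^ 2 * eT T) := by
  rw [Q3_dirs T h0 h1 h2]
  have he := eT_euler T
  simp only [Derivation.leibniz, map_sub, Derivation.leibniz_pow, pderiv_X, smul_eq_mul,
    nsmul_eq_mul]
  unfold alp
  simp only [Pi.single_apply]
  have c4 : (C (4 : ℂ) : S 3) = 4 := map_ofNat C 4
  have cT : (C (T.card : ℂ) : S 3) = (T.card : S 3) := map_natCast C _
  rw [map_add, c4, cT]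
  rw [cT] at he
  simp
  linear_combination (- X 2 * (X 1 ^ 2 - X 2 ^ 2)) * he

def third (T : Finset ℂ) [DecidableEq ℂ] (h0 : (0 : ℂ) ∉ T) (h1 : (1 : ℂ) ∉ T)
    (h2 : (-1 : ℂ) ∉ T) (hT : 1 ≤ T.card) : Third (dirs T) where
  h := X 0 * (alp T + C ((T.card : ℂ) + 4) * eT T * X 0 ^ 2)
  hom := by
    rw [card_dirs T h0 h1 h2]
    obtain ⟨e, he⟩ : ∃ e, T.card = e + 1 := ⟨T.card - 1, by omega⟩
    have hE := eT_hom T
    have hEy := hE.pderiv (i := 2)
    rw [he] at hE hEy ⊢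
    rw [Nat.add_sub_cancel] at hEy
    have hx2 : ((X 1 : S 3) ^ 2).IsHomogeneous 2 := by
      simpa using (isHomogeneous_X ℂ (1 : Fin 3)).pow 2
    have hy2 : ((X 2 : S 3) ^ 2).IsHomogeneous 2 := by
      simpa using (isHomogeneous_X ℂ (2 : Fin 3)).pow 2
    have hw2 : ((X 0 : S 3) ^ 2).IsHomogeneous 2 := by
      simpa using (isHomogeneous_X ℂ (0 : Fin 3)).pow 2
    have h3y2 : ((3 : S 3) * X 2 ^ 2).IsHomogeneous 2 := by
      have := (isHomogeneous_C (Fin 3) (3 : ℂ)).mul hy2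
      rw [zero_add, show (C (3 : ℂ) : S 3) = 3 from map_ofNat C 3] at this
      exact this
    have a1 : ((X 1 ^ 2 - 3 * X 2 ^ 2) * eT T : S 3).IsHomogeneous (e + 3) := by
      have := (hx2.sub h3y2).mul hE
      rw [show 2 + (e + 1) = e + 3 by omega] at this
      exact this
    have a2 : (X 2 * (X 1 ^ 2 - X 2 ^ 2) * pderiv 2 (eT T) : S 3).IsHomogeneous (e + 3) := by
      have := ((isHomogeneous_X ℂ (2 : Fin 3)).mul (hx2.sub hy2)).mul hEy
      rw [show 1 + 2 + e = e + 3 by omega] at this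
      exact this
    have a3 : (C (((e + 1 : ℕ) : ℂ) + 4) * X 1 ^ 2 * eT T : S 3).IsHomogeneous (e + 3) := by
      have := ((isHomogeneous_C (Fin 3) (((e + 1 : ℕ) : ℂ) + 4)).mul hx2).mul hE
      rw [show 0 + 2 + (e + 1) = e + 3 by omega] at this
      exact this
    have a4 : (C (((e + 1 : ℕ) : ℂ) + 4) * eT T * X 0 ^ 2 : S 3).IsHomogeneous (e + 3) := by
      have := ((isHomogeneous_C (Fin 3) (((e + 1 : ℕ) : ℂ) + 4)).mul hE).mul hw2
      rw [show 0 + (e + 1) + 2 = e + 3 by omega] at this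
      exact this
    have a5 : (alp T).IsHomogeneous (e + 3) := by
      unfold alp
      rw [he]
      exact (a1.add a2).sub a3
    have := (isHomogeneous_X ℂ (0 : Fin 3)).mul (a5.add a4)
    rw [show 1 + (e + 3) = e + 1 + 3 by omega] at this
    exact this

theorem third_good (T : Finset ℂ) [DecidableEq ℂ] (h0 : (0 : ℂ) ∉ T) (h1 : (1 : ℂ) ∉ T)
    (h2 : (-1 : ℂ) ∉ T) (hT : 1 ≤ T.card) :
    ∀ x ∈ ([(0, -1), (0, 1), (-1, 0), (1, 0), (0, 0)] : List (ℂ × ℂ)),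
      linForm (bv x) ∣ (third T h0 h1 h2 hT).der (linForm (bv x)) := by
  have e1 := pderiv2_Q3 T h0 h1 h2
  have e2 := pderiv1_Q3 T h0 h1 h2
  have key : ∀ x : ℂ × ℂ, (third T h0 h1 h2 hT).der (linForm (bv x)) =
      X 0 * (alp T + C ((T.card : ℂ) + 4) * eT T * X 0 ^ 2) -
      C x.1 * (X 1 * (alp T + C ((T.card : ℂ) + 4) * X 1 ^ 2 * eT T)) -
      C x.2 * (X 2 * (alp T + C ((T.card : ℂ) + 4) * X 2 ^ 2 * eT T)) := by
    intro x
    rw [der_linForm, Fin.sum_univ_three, Third.der_X0, Third.der_X1, Third.der_X2, e1, e2]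
    simp only [bv, third, Matrix.cons_val_zero, Matrix.cons_val_one, Matrix.cons_val, map_one,
      map_neg]
    ring
  intro x hx
  rw [key, linForm_bv]
  simp only [List.mem_cons, List.not_mem_nil, or_false] at hx
  rcases hx with rfl | rfl | rfl | rfl | rfl
  · refine ⟨alp T + C ((T.card : ℂ) + 4) * eT T * (X 0 ^ 2 - X 0 * X 2 + X 2 ^ 2), ?_⟩
    simp only [map_zero, map_neg, map_one]
    ring
  · refine ⟨alp T + C ((T.card : ℂ) + 4) * eT T * (X 0 ^ 2 + X 0 * X 2 + X 2 ^ 2), ?_⟩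
    simp only [map_zero, map_one]
    ring
  · refine ⟨alp T + C ((T.card : ℂ) + 4) * eT T * (X 0 ^ 2 - X 0 * X 1 + X 1 ^ 2), ?_⟩
    simp only [map_zero, map_neg, map_one]
    ring
  · refine ⟨alp T + C ((T.card : ℂ) + 4) * eT T * (X 0 ^ 2 + X 0 * X 1 + X 1 ^ 2), ?_⟩
    simp only [map_zero, map_one]
    ring
  · refine ⟨alp T + C ((T.card : ℂ) + 4) * eT T * X 0 ^ 2, ?_⟩
    simp only [map_zero]
    ring

theorem hyp_smul2 (c a b : ℂ) (hc : c ≠ 0) : hyp ![c * a, c * b] = hyp ![a, b] := by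
  ext v
  rw [mem_hyp2, mem_hyp2]
  constructor
  · intro h
    have : c * (a * v 0 + b * v 1) = 0 := by linear_combination h
    exact (mul_eq_zero.mp this).resolve_left hc
  · intro h
    linear_combination c * h

theorem pen2_mem_inf (T : Finset ℂ) (c : ℂ) (hc : c ≠ 0) : hyp ![0, c] ∈ pen2 T := by
  left
  have := hyp_smul2 c 0 1 hc
  rw [mul_zero, mul_one] at this
  exact this

theorem pen2_mem_dir (T : Finset ℂ) (c t : ℂ) (hc : c ≠ 0) (ht : t ∈ T) (d : ℂ)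
    (hd : d = -(c * t)) : hyp ![c, d] ∈ pen2 T := by
  right
  refine ⟨t, by simpa using ht, ?_⟩
  have := hyp_smul2 c 1 (-t) hc
  rw [mul_one] at this
  rw [hd, ← mul_neg]
  exact this.symm

theorem sections_pair (T : Finset ℂ) [DecidableEq ℂ] (τ : ℂ) (hτ : τ ∉ dirs T) :
    ([(0, -1), (0, 1), (-1, 0), (1, 0), (0, 0)] : List (ℂ × ℂ)).Pairwise
      (fun x y => hyp ![x.1 - y.1, x.2 - y.2] ∈ pen2 (dirs T) ∧
        (x.1 - y.1) * τ + (x.2 - y.2) ≠ 0) := by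
  have m0 : (0 : ℂ) ∈ dirs T := by simp [dirs]
  have m1 : (1 : ℂ) ∈ dirs T := by simp [dirs]
  have m2 : (-1 : ℂ) ∈ dirs T := by simp [dirs]
  have t0 : τ ≠ 0 := fun h => hτ (h ▸ m0)
  have t1 : τ ≠ 1 := fun h => hτ (h ▸ m1)
  have t2 : τ ≠ -1 := fun h => hτ (h ▸ m2)
  have s1 : τ - 1 ≠ 0 := sub_ne_zero.mpr t1
  have s2 : τ + 1 ≠ 0 := by
    intro h; exact t2 (by linear_combination h)
  simp only [List.pairwise_cons, List.mem_cons, List.not_mem_nil, or_false, forall_eq_or_imp,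
    forall_eq, List.Pairwise.nil, and_true, IsEmpty.forall_iff, implies_true]
  refine ⟨⟨⟨?_, ?_⟩, ⟨?_, ?_⟩, ⟨?_, ?_⟩, ⟨?_, ?_⟩⟩, ⟨⟨?_, ?_⟩, ⟨?_, ?_⟩, ⟨?_, ?_⟩⟩,
    ⟨⟨?_, ?_⟩, ⟨?_, ?_⟩⟩, ⟨?_, ?_⟩⟩
  · rw [sub_zero]; exact pen2_mem_inf _ _ (by norm_num)
  · norm_num
  · exact pen2_mem_dir _ _ 1 (by norm_num) m1 _ (by norm_num)
  · intro h; exact s1 (by linear_combination h)
  · exact pen2_mem_dir _ _ (-1) (by norm_num) m2 _ (by norm_num)
  · intro h; exact s2 (by linear_combination -h)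
  · rw [sub_zero]; exact pen2_mem_inf _ _ (by norm_num)
  · norm_num
  · exact pen2_mem_dir _ _ (-1) (by norm_num) m2 _ (by norm_num)
  · intro h; exact s2 (by linear_combination h)
  · exact pen2_mem_dir _ _ 1 (by norm_num) m1 _ (by norm_num)
  · intro h; exact s1 (by linear_combination -h)
  · rw [sub_zero]; exact pen2_mem_inf _ _ (by norm_num)
  · norm_num
  · exact pen2_mem_dir _ _ 0 (by norm_num) m0 _ (by norm_num)
  · intro h; exact t0 (by linear_combination (-1 / 2) * h)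
  · exact pen2_mem_dir _ _ 0 (by norm_num) m0 _ (by norm_num)
  · intro h; exact t0 (by linear_combination -h)
  · exact pen2_mem_dir _ _ 0 (by norm_num) m0 _ (by norm_num)
  · intro h; exact t0 (by linear_combination h)

theorem arr_eq (T : Finset ℂ) [DecidableEq ℂ] :
    arr T = aL (dirs T) [(0, -1), (0, 1), (-1, 0), (1, 0), (0, 0)] := by
  ext L
  simp only [arr, aL, pen3, dirs, bv, Set.mem_union, Set.mem_insert_iff, Set.mem_singleton_iff,
    Finset.coe_insert, Set.image_insert_eq, neg_zero, neg_neg]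
  tauto

theorem arr_IF (T : Finset ℂ) (hT : 1 ≤ T.card) (h0 : (0 : ℂ) ∉ T) (h1 : (1 : ℂ) ∉ T)
    (h2 : (-1 : ℂ) ∉ T) : InductivelyFree 3 (arr T) := by
  classical
  obtain ⟨τ, hτ⟩ := Infinite.exists_notMem_finset (dirs T)
  rw [arr_eq]
  exact (add_sections (third T h0 h1 h2 hT) τ hτ _ (third_good T h0 h1 h2 hT)
    (sections_pair T τ hτ)).2.1

theorem arr_card (T : Finset ℂ) (hT : 1 ≤ T.card) (h0 : (0 : ℂ) ∉ T) (h1 : (1 : ℂ) ∉ T)
    (h2 : (-1 : ℂ) ∉ T) : (arr T).ncard = T.card + 9 := by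
  classical
  obtain ⟨τ, hτ⟩ := Infinite.exists_notMem_finset (dirs T)
  rw [arr_eq]
  have h := (add_sections (third T h0 h1 h2 hT) τ hτ _ (third_good T h0 h1 h2 hT)
    (sections_pair T τ hτ)).2.2.2
  rw [h, card_dirs T h0 h1 h2]
  rfl

theorem arr_not_le (T : Finset ℂ) (hT : 3 ≤ T.card) (h0 : (0 : ℂ) ∉ T) (h1 : (1 : ℂ) ∉ T)
    (h2 : (-1 : ℂ) ∉ T) : ¬ Containment (arr T) 2 := by
  intro h
  obtain ⟨m, hm⟩ : ∃ m, T.card = m + 3 := ⟨T.card - 3, by omega⟩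
  exact bigG_not_mem T m h0 h1 h2 (h (bigG_mem T m hm h0 h1 h2))

end

end Pool.Agent.RFH
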