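import Pool.Agent.RFH.Defs

namespace Pool.Agent.RFH

open MvPolynomial

noncomputable section

/-- product of the extra linear forms -/
def eT (T : Finset ℂ) : S 3 := ∏ t ∈ T, (X 1 - C t * X 2)

def gam (T : Finset ℂ) : ℂ := ∏ t ∈ T, (-t)

def gg : S 3 := X 0 * (X 0 ^ 2 - X 1 ^ 2) * (X 0 ^ 2 - X 2 ^ 2)

def qq : S 3 := (X 1 ^ 2 - X 2 ^ 2) ^ 2 + X 0 ^ 2 * (X 1 ^ 2 + X 2 ^ 2) - 2 * X 0 ^ 4

def ss (c : ℂ) (m : ℕ) : S 3 := X 0 * (X 1 ^ (m + 1) + C c * X 2 ^ (m + 1))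

def bigG (T : Finset ℂ) (m : ℕ) : S 3 :=
  eT T * gg * (eT T * qq + 3 * gg * ss (gam T) m)

theorem eT_dec1 (T : Finset ℂ) : ∃ u : S 3, eT T = C (gam T) * X 2 ^ T.card + X 1 * u := by
  classical
  induction T using Finset.induction_on with
  | empty => exact ⟨0, by simp [eT, gam]⟩
  | insert t T ht ih =>
    obtain ⟨u, hu⟩ := ih
    refine ⟨(C (gam T) * X 2 ^ T.card + X 1 * u) - C t * X 2 * u, ?_⟩
    have h1 : eT (insert t T) = (X 1 - C t * X 2) * eT T := by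
      simp [eT, Finset.prod_insert ht]
    have h2 : gam (insert t T) = (-t) * gam T := by
      simp [gam, Finset.prod_insert ht]
    rw [h1, h2, hu, Finset.card_insert_of_notMem ht]
    simp only [map_mul, map_neg]
    ring

theorem eT_dec2 (T : Finset ℂ) : ∃ u : S 3, eT T = X 1 ^ T.card + X 2 * u := by
  classical
  induction T using Finset.induction_on with
  | empty => exact ⟨0, by simp [eT]⟩
  | insert t T ht ih =>
    obtain ⟨u, hu⟩ := ih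
    refine ⟨(X 1 * u - C t * (X 1 ^ T.card + X 2 * u)), ?_⟩
    have h1 : eT (insert t T) = (X 1 - C t * X 2) * eT T := by
      simp [eT, Finset.prod_insert ht]
    rw [h1, hu, Finset.card_insert_of_notMem ht]
    ring

theorem sq_mem {P : Ideal (S 3)} {a b : S 3} (ha : a ∈ P) (hb : b ∈ P) : a * b ∈ P ^ 2 := by
  rw [pow_two]; exact Ideal.mul_mem_mul ha hb

theorem cu_mem {P : Ideal (S 3)} {a b : S 3} (ha : a ∈ P) (hb : b ∈ P ^ 2) : a * b ∈ P ^ 3 := by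
  rw [pow_succ']; exact Ideal.mul_mem_mul ha hb

/-- both lines through the origin of the pencil -/
theorem close_O (P : Ideal (S 3)) (T : Finset ℂ) (m : ℕ) (hT : 3 ≤ T.card)
    (hx : (X 1 : S 3) ∈ P) (hy : (X 2 : S 3) ∈ P) : bigG T m ∈ P ^ 3 := by
  have h1 : eT T ∈ P ^ T.card := by
    unfold eT
    have : ∀ T : Finset ℂ, (∏ t ∈ T, ((X 1 : S 3) - C t * X 2)) ∈ P ^ T.card := by
      classical
      intro T
      induction T using Finset.induction_on with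
      | empty => simp
      | insert t T ht ih =>
        rw [Finset.prod_insert ht, Finset.card_insert_of_notMem ht, pow_succ']
        exact Ideal.mul_mem_mul (P.sub_mem hx (P.mul_mem_left _ hy)) ih
    exact this T
  have h2 : eT T ∈ P ^ 3 := Ideal.pow_le_pow_right hT h1
  unfold bigG
  rw [mul_assoc]
  exact (P ^ 3).mul_mem_right _ h2

theorem close_ET (P : Ideal (S 3)) (T : Finset ℂ) (m : ℕ)
    (hE : eT T ∈ P) (hg : gg ∈ P) : bigG T m ∈ P ^ 3 := by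
  have h : bigG T m = eT T * (gg * (eT T * qq + 3 * gg * ss (gam T) m)) := by
    unfold bigG; ring
  rw [h]
  refine cu_mem hE (sq_mem hg ?_)
  refine P.add_mem (P.mul_mem_right _ hE) ?_
  rw [mul_assoc]
  exact P.mul_mem_left _ (P.mul_mem_right _ hg)

theorem close_P (P : Ideal (S 3)) (T : Finset ℂ) (m : ℕ)
    (hw : (X 0 : S 3) ∈ P) (hx : (X 1 : S 3) ∈ P) : bigG T m ∈ P ^ 3 := by
  have h1 : (X 0 ^ 2 - X 1 ^ 2 : S 3) ∈ P ^ 2 := by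
    have := (P ^ 2).sub_mem (sq_mem hw hw) (sq_mem hx hx)
    simpa [pow_two] using this
  have h : bigG T m = (X 0 * (X 0 ^ 2 - X 1 ^ 2)) * ((X 0 ^ 2 - X 2 ^ 2) * eT T *
      (eT T * qq + 3 * gg * ss (gam T) m)) := by
    unfold bigG
    nth_rewrite 1 [gg]
    ring
  rw [h]
  exact (P ^ 3).mul_mem_right _ (cu_mem hw h1)

theorem close_Q (P : Ideal (S 3)) (T : Finset ℂ) (m : ℕ)
    (hw : (X 0 : S 3) ∈ P) (hy : (X 2 : S 3) ∈ P) : bigG T m ∈ P ^ 3 := by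
  have h1 : (X 0 ^ 2 - X 2 ^ 2 : S 3) ∈ P ^ 2 := by
    have := (P ^ 2).sub_mem (sq_mem hw hw) (sq_mem hy hy)
    simpa [pow_two] using this
  have h : bigG T m = (X 0 * (X 0 ^ 2 - X 2 ^ 2)) * ((X 0 ^ 2 - X 1 ^ 2) * eT T *
      (eT T * qq + 3 * gg * ss (gam T) m)) := by
    unfold bigG
    nth_rewrite 1 [gg]
    ring
  rw [h]
  exact (P ^ 3).mul_mem_right _ (cu_mem hw h1)

/-- corners -/
theorem close_c (P : Ideal (S 3)) (T : Finset ℂ) (m : ℕ)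
    (hA : (X 0 ^ 2 - X 1 ^ 2 : S 3) ∈ P) (hB : (X 0 ^ 2 - X 2 ^ 2 : S 3) ∈ P) :
    bigG T m ∈ P ^ 3 := by
  have hg : gg ∈ P ^ 2 := by
    have h : gg = X 0 * ((X 0 ^ 2 - X 1 ^ 2) * (X 0 ^ 2 - X 2 ^ 2)) := by unfold gg; ring
    rw [h]
    exact (P ^ 2).mul_mem_left _ (sq_mem hA hB)
  have hg1 : gg ∈ P := Ideal.pow_le_self (by norm_num) hg
  have hq : qq ∈ P := by
    have h : qq = ((X 0 ^ 2 - X 1 ^ 2) * ((X 0 ^ 2 - X 1 ^ 2) - 2 * (X 0 ^ 2 - X 2 ^ 2) - X 0 ^ 2)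
      + (X 0 ^ 2 - X 2 ^ 2) * ((X 0 ^ 2 - X 2 ^ 2) - X 0 ^ 2)) := by unfold qq; ring
    rw [h]
    exact P.add_mem (P.mul_mem_right _ hA) (P.mul_mem_right _ hB)
  have h : bigG T m = (eT T * qq + 3 * gg * ss (gam T) m) * (eT T * gg) := by
    unfold bigG; ring
  rw [h]
  refine cu_mem ?_ ((P ^ 2).mul_mem_left _ hg)
  refine P.add_mem (P.mul_mem_left _ hq) ?_
  rw [mul_assoc]
  exact P.mul_mem_left _ (P.mul_mem_right _ hg1)

theorem close_dx (P : Ideal (S 3)) (T : Finset ℂ) (m : ℕ) (hT : T.card = m + 3)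
    (hx : (X 1 : S 3) ∈ P) (hB : (X 0 ^ 2 - X 2 ^ 2 : S 3) ∈ P) :
    bigG T m ∈ P ^ 3 := by
  have hg : gg ∈ P := by
    unfold gg
    exact P.mul_mem_left _ hB
  have h : bigG T m = gg * ((eT T * qq + 3 * gg * ss (gam T) m) * eT T) := by
    unfold bigG; ring
  rw [h]
  refine cu_mem hg ((P ^ 2).mul_mem_right _ ?_)
  obtain ⟨u, hu⟩ := eT_dec1 T
  rw [hT] at hu
  have h2 : eT T * qq + 3 * gg * ss (gam T) m =
      (X 0 ^ 2 - X 2 ^ 2) * (X 0 ^ 2 - X 2 ^ 2) * (C (gam T) * X 2 ^ (m + 1) *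
        (X 2 ^ 2 + 3 * X 0 ^ 2))
      + X 1 * X 1 * (eT T * (X 1 ^ 2 - 2 * X 2 ^ 2 + X 0 ^ 2)
          - 3 * X 0 * (X 0 ^ 2 - X 2 ^ 2) * ss (gam T) m)
      + X 1 * (X 0 ^ 2 - X 2 ^ 2) * (- u * (X 2 ^ 2 + 2 * X 0 ^ 2) + 3 * X 0 ^ 4 * X 1 ^ m) := by
    rw [hu]
    unfold qq gg ss
    ring
  rw [h2]
  exact (P ^ 2).add_mem ((P ^ 2).add_mem ((P ^ 2).mul_mem_right _ (sq_mem hB hB))
    ((P ^ 2).mul_mem_right _ (sq_mem hx hx))) ((P ^ 2).mul_mem_right _ (sq_mem hx hB))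

theorem close_dy (P : Ideal (S 3)) (T : Finset ℂ) (m : ℕ) (hT : T.card = m + 3)
    (hy : (X 2 : S 3) ∈ P) (hA : (X 0 ^ 2 - X 1 ^ 2 : S 3) ∈ P) :
    bigG T m ∈ P ^ 3 := by
  have hg : gg ∈ P := by
    unfold gg
    exact P.mul_mem_right _ (P.mul_mem_left _ hA)
  have h : bigG T m = gg * ((eT T * qq + 3 * gg * ss (gam T) m) * eT T) := by
    unfold bigG; ring
  rw [h]
  refine cu_mem hg ((P ^ 2).mul_mem_right _ ?_)
  obtain ⟨u, hu⟩ := eT_dec2 T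
  rw [hT] at hu
  have h2 : eT T * qq + 3 * gg * ss (gam T) m =
      (X 0 ^ 2 - X 1 ^ 2) * (X 0 ^ 2 - X 1 ^ 2) * (X 1 ^ (m + 1) *
        (X 1 ^ 2 + 3 * X 0 ^ 2))
      + X 2 * X 2 * (eT T * (X 2 ^ 2 - 2 * X 1 ^ 2 + X 0 ^ 2)
          - 3 * X 0 * (X 0 ^ 2 - X 1 ^ 2) * ss (gam T) m)
      + X 2 * (X 0 ^ 2 - X 1 ^ 2) * (- u * (X 1 ^ 2 + 2 * X 0 ^ 2)
          + 3 * C (gam T) * X 0 ^ 4 * X 2 ^ m) := by
    rw [hu]
    unfold qq gg ss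
    ring
  rw [h2]
  exact (P ^ 2).add_mem ((P ^ 2).add_mem ((P ^ 2).mul_mem_right _ (sq_mem hA hA))
    ((P ^ 2).mul_mem_right _ (sq_mem hy hy))) ((P ^ 2).mul_mem_right _ (sq_mem hy hA))

theorem close_dw (P : Ideal (S 3)) (T : Finset ℂ) (m : ℕ)
    (hw : (X 0 : S 3) ∈ P) (hD : (X 1 ^ 2 - X 2 ^ 2 : S 3) ∈ P) :
    bigG T m ∈ P ^ 3 := by
  have hg : gg ∈ P := by
    unfold gg
    rw [mul_assoc]
    exact P.mul_mem_right _ hw
  have h : bigG T m = gg * ((eT T * qq + 3 * gg * ss (gam T) m) * eT T) := by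
    unfold bigG; ring
  rw [h]
  refine cu_mem hg ((P ^ 2).mul_mem_right _ ?_)
  have h2 : eT T * qq + 3 * gg * ss (gam T) m =
      (X 1 ^ 2 - X 2 ^ 2) * (X 1 ^ 2 - X 2 ^ 2) * eT T +
      X 0 * X 0 * (eT T * (X 1 ^ 2 + X 2 ^ 2 - 2 * X 0 ^ 2) +
        3 * (X 0 ^ 2 - X 1 ^ 2) * (X 0 ^ 2 - X 2 ^ 2) *
          (X 1 ^ (m + 1) + C (gam T) * X 2 ^ (m + 1))) := by
    unfold qq gg ss
    ring
  rw [h2]
  exact (P ^ 2).add_mem ((P ^ 2).mul_mem_right _ (sq_mem hD hD))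
    ((P ^ 2).mul_mem_right _ (sq_mem hw hw))

end

end Pool.Agent.RFH
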