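import Pool.Agent.RFH.Pencil
import Pool.Agent.RFH.Sym

namespace Pool.Agent.RFH

open MvPolynomial

noncomputable section

/-! ### planar pencils are inductively free -/

def sA : (Fin 1 → ℂ) →ₗ[ℂ] (Fin 2 → ℂ) where
  toFun u := ![u 0, 0]
  map_add' u v := by ext i; fin_cases i <;> simp
  map_smul' c u := by ext i; fin_cases i <;> simp

def sB (t : ℂ) : (Fin 1 → ℂ) →ₗ[ℂ] (Fin 2 → ℂ) where
  toFun u := ![t * u 0, u 0]
  map_add' u v := by ext i; fin_cases i <;> simp [mul_add]
  map_smul' c u := by ext i; fin_cases i <;> simp [mul_left_comm]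

theorem mem_hyp1 (a : ℂ) (v : Fin 1 → ℂ) : v ∈ hyp ![a] ↔ a * v 0 = 0 := by
  simp [mem_hyp]

theorem IF_pen2 (T : Finset ℂ) : InductivelyFree 2 (pen2 T) := by
  classical
  induction T using Finset.induction_on with
  | empty =>
    rw [pen2_empty]
    refine IF_insert (Set.notMem_empty _) sA ?_ ?_ (B := ∅) (by simp) (InductivelyFree.empty 2)
      (InductivelyFree.empty 1) (exp_empty 2) (exp_empty 1) ?_
    · intro u v h
      funext i
      fin_cases i
      exact congrFun h 0
    · ext v
      rw [mem_hyp2, LinearMap.mem_range]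
      constructor
      · rintro ⟨u, rfl⟩
        simp [sA]
      · intro h
        refine ⟨![v 0], ?_⟩
        ext i
        fin_cases i
        · simp [sA]
        · simp only [zero_mul, one_mul, zero_add] at h
          simp [sA, h]
    · rw [val_map1, val_map2]
      exact Multiset.le_cons_self _ _
  | insert t T ht ih =>
    rw [pen2_insert]
    have hnot : hyp ![1, -t] ∉ pen2 T := (isQ2 T).notMem (ne2 t) (ndvd2 T t ht)
    refine IF_insert hnot (sB t) ?_ ?_ (B := {hyp ![1]}) ?_ ih IF_one.1 (exp_pen2 T) IF_one.2 ?_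
    · intro u v h
      funext i
      fin_cases i
      exact congrFun h 1
    · ext v
      rw [mem_hyp2, LinearMap.mem_range]
      constructor
      · rintro ⟨u, rfl⟩
        simp [sB]
      · intro h
        refine ⟨![v 1], ?_⟩
        ext i
        fin_cases i
        · simp only [sB, LinearMap.coe_mk, AddHom.coe_mk, Matrix.cons_val_zero, Fin.zero_eta]
          linear_combination -h
        · simp [sB]
    · have e1 : (hyp ![0, 1]).comap (sB t) = hyp ![1] := by
        ext u
        rw [Submodule.mem_comap, mem_hyp2, mem_hyp1]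
        simp [sB]
      have e2 : ∀ s ∈ T, (hyp ![1, -s]).comap (sB t) = hyp ![1] := by
        intro s hs
        have hst : t - s ≠ 0 := sub_ne_zero.mpr (by rintro rfl; exact ht hs)
        ext u
        rw [Submodule.mem_comap, mem_hyp2, mem_hyp1]
        simp only [sB, LinearMap.coe_mk, AddHom.coe_mk, Matrix.cons_val_zero, Matrix.cons_val_one]
        constructor
        · intro h
          have : (t - s) * u 0 = 0 := by linear_combination h
          rw [one_mul]
          exact (mul_eq_zero.mp this).resolve_left hst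
        · intro h
          rw [one_mul] at h
          rw [h]; ring
      ext L
      rw [Set.mem_singleton_iff, Set.mem_image]
      constructor
      · rintro rfl
        exact ⟨_, Or.inl rfl, e1⟩
      · rintro ⟨H', hH', rfl⟩
        rcases hH' with rfl | ⟨s, hs, rfl⟩
        · exact e1
        · exact e2 s (by simpa using hs)
    · exact Multiset.singleton_le.mpr (by simp)

/-! ### pencils in space -/

def sC : (Fin 2 → ℂ) →ₗ[ℂ] (Fin 3 → ℂ) where
  toFun u := ![u 0, u 1, 0]
  map_add' u v := by ext i; fin_cases i <;> simp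
  map_smul' c u := by ext i; fin_cases i <;> simp

def sD (t : ℂ) : (Fin 2 → ℂ) →ₗ[ℂ] (Fin 3 → ℂ) where
  toFun u := ![u 0, t * u 1, u 1]
  map_add' u v := by ext i; fin_cases i <;> simp [mul_add]
  map_smul' c u := by ext i; fin_cases i <;> simp [mul_left_comm]

theorem IF_pen3 (T : Finset ℂ) : InductivelyFree 3 (pen3 T) := by
  classical
  induction T using Finset.induction_on with
  | empty =>
    rw [pen3_empty]
    refine IF_insert (Set.notMem_empty _) sC ?_ ?_ (B := ∅) (by simp) (InductivelyFree.empty 3)
      (InductivelyFree.empty 2) (exp_empty 3) (exp_empty 2) ?_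
    · intro u v h
      funext i
      fin_cases i
      · exact congrFun h 0
      · exact congrFun h 1
    · ext v
      rw [mem_hyp3, LinearMap.mem_range]
      constructor
      · rintro ⟨u, rfl⟩
        simp [sC]
      · intro h
        simp only [zero_mul, one_mul, zero_add] at h
        refine ⟨![v 0, v 1], ?_⟩
        ext i
        fin_cases i
        · simp [sC]
        · simp [sC]
        · simp [sC, h]
    · rw [val_map2, val_map3]
      exact Multiset.le_cons_self _ _
  | insert t T ht ih =>
    rw [pen3_insert]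
    have hnot : hyp ![0, 1, -t] ∉ pen3 T := (isQ3 T).notMem (ne3 t) (ndvd3 T t ht)
    refine IF_insert hnot (sD t) ?_ ?_ (B := pen2 ∅) ?_ ih (IF_pen2 ∅) (exp_pen3 T)
      (exp_pen2 ∅) ?_
    · intro u v h
      funext i
      fin_cases i
      · exact congrFun h 0
      · exact congrFun h 2
    · ext v
      rw [mem_hyp3, LinearMap.mem_range]
      constructor
      · rintro ⟨u, rfl⟩
        simp [sD]
      · intro h
        refine ⟨![v 0, v 2], ?_⟩
        ext i
        fin_cases i
        · simp [sD]
        · have h5 : t * v 2 = v 1 := by linear_combination -h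
          simpa [sD] using h5
        · simp [sD]
    · have e1 : (hyp ![0, 0, 1]).comap (sD t) = hyp ![0, 1] := by
        ext u
        rw [Submodule.mem_comap, mem_hyp3, mem_hyp2]
        simp [sD]
      have e2 : ∀ s ∈ T, (hyp ![0, 1, -s]).comap (sD t) = hyp ![0, 1] := by
        intro s hs
        have hst : t - s ≠ 0 := sub_ne_zero.mpr (by rintro rfl; exact ht hs)
        ext u
        rw [Submodule.mem_comap, mem_hyp3, mem_hyp2]
        simp only [sD, LinearMap.coe_mk, AddHom.coe_mk, Matrix.cons_val_zero, Matrix.cons_val_one,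
          Matrix.cons_val]
        constructor
        · intro h
          have : (t - s) * u 1 = 0 := by linear_combination h
          rw [zero_mul, one_mul, zero_add]
          exact (mul_eq_zero.mp this).resolve_left hst
        · intro h
          rw [zero_mul, one_mul, zero_add] at h
          rw [h]; ring
      rw [pen2_empty]
      ext L
      rw [Set.mem_image]
      constructor
      · rintro (rfl | h)
        · exact ⟨_, Or.inl rfl, e1⟩
        · exact absurd h (Set.notMem_empty _)
      · rintro ⟨H', hH', rfl⟩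
        left
        rcases hH' with rfl | ⟨s, hs, rfl⟩
        · exact e1
        · exact e2 s (by simpa using hs)
    · rw [Multiset.le_iff_exists_add]
      refine ⟨{T.card}, ?_⟩
      simp only [Finset.card_empty, Multiset.insert_eq_cons, Multiset.cons_add,
        Multiset.singleton_add]
      exact Multiset.cons_swap _ _ _

/-! ### adding the sections -/

def bv (x : ℂ × ℂ) : Fin 3 → ℂ := ![1, -x.1, -x.2]

theorem bv_ne (x : ℂ × ℂ) : bv x ≠ 0 := by
  intro h; simpa [bv] using congrFun h 0

def sg (x : ℂ × ℂ) : (Fin 2 → ℂ) →ₗ[ℂ] (Fin 3 → ℂ) where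
  toFun u := ![x.1 * u 0 + x.2 * u 1, u 0, u 1]
  map_add' u v := by ext i; fin_cases i <;> simp; ring
  map_smul' c u := by ext i; fin_cases i <;> simp; ring

theorem sg_inj (x : ℂ × ℂ) : Function.Injective (sg x) := by
  intro u v h
  funext i
  fin_cases i
  · exact congrFun h 1
  · exact congrFun h 2

theorem sg_range (x : ℂ × ℂ) : LinearMap.range (sg x) = hyp (bv x) := by
  ext v
  unfold bv
  rw [mem_hyp3, LinearMap.mem_range]
  constructor
  · rintro ⟨u, rfl⟩
    simp only [sg, LinearMap.coe_mk, AddHom.coe_mk, Matrix.cons_val_zero, Matrix.cons_val_one,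
      Matrix.cons_val]
    ring
  · intro h
    refine ⟨![v 1, v 2], ?_⟩
    ext i
    fin_cases i
    · have h5 : x.1 * v 1 + x.2 * v 2 = v 0 := by linear_combination -h
      simpa [sg] using h5
    · simp [sg]
    · simp [sg]

theorem sg_comap1 (x : ℂ × ℂ) : (hyp ![0, 0, 1]).comap (sg x) = hyp ![0, 1] := by
  ext u
  rw [Submodule.mem_comap, mem_hyp3, mem_hyp2]
  simp [sg]

theorem sg_comap2 (x : ℂ × ℂ) (t : ℂ) : (hyp ![0, 1, -t]).comap (sg x) = hyp ![1, -t] := by
  ext u
  rw [Submodule.mem_comap, mem_hyp3, mem_hyp2]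
  simp [sg]

theorem sg_comap3 (x y : ℂ × ℂ) :
    (hyp (bv y)).comap (sg x) = hyp ![x.1 - y.1, x.2 - y.2] := by
  ext u
  unfold bv
  rw [Submodule.mem_comap, mem_hyp3, mem_hyp2]
  simp only [sg, LinearMap.coe_mk, AddHom.coe_mk, Matrix.cons_val_zero, Matrix.cons_val_one,
      Matrix.cons_val]
  constructor
  · intro h; linear_combination h
  · intro h; linear_combination h

def aL (T : Finset ℂ) : List (ℂ × ℂ) → Set (Submodule ℂ (Fin 3 → ℂ))
  | [] => pen3 T
  | x :: l => insert (hyp (bv x)) (aL T l)

def gL : List (ℂ × ℂ) → S 3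
  | [] => 1
  | x :: l => linForm (bv x) * gL l

theorem linForm_bv (x : ℂ × ℂ) : linForm (bv x) = X 0 - C x.1 * X 1 - C x.2 * X 2 := by
  unfold bv
  rw [linForm3]
  simp only [map_one, map_neg]
  ring

theorem gL_hom (l : List (ℂ × ℂ)) : (gL l).IsHomogeneous l.length := by
  induction l with
  | nil => exact isHomogeneous_one _ _
  | cons x l ih =>
    unfold gL
    rw [List.length_cons, add_comm]
    refine IsHomogeneous.mul ?_ ih
    rw [linForm_bv]
    refine ((isHomogeneous_X _ _).sub ?_).sub ?_
    · simpa using (isHomogeneous_C (Fin 3) x.1).mul (isHomogeneous_X ℂ (1 : Fin 3))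
    · simpa using (isHomogeneous_C (Fin 3) x.2).mul (isHomogeneous_X ℂ (2 : Fin 3))

/-- the third basis derivation, abstractly -/
structure Third (T : Finset ℂ) where
  h : S 3
  hom : h.IsHomogeneous T.card

def Third.der {T : Finset ℂ} (θ : Third T) : Derivation ℂ (S 3) (S 3) :=
  mkDerivation ℂ (![θ.h, pderiv 2 (Q3 T), - pderiv 1 (Q3 T)] : Fin 3 → S 3)

def omg (g : S 3) : Derivation ℂ (S 3) (S 3) := mkDerivation ℂ (![g, 0, 0] : Fin 3 → S 3)

theorem omg_X0 (g : S 3) : omg g (X 0) = g := by simp [omg, mkDerivation_X]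
theorem omg_X1 (g : S 3) : omg g (X 1) = 0 := by simp [omg, mkDerivation_X]
theorem omg_X2 (g : S 3) : omg g (X 2) = 0 := by simp [omg, mkDerivation_X]
theorem Third.der_X0 {T : Finset ℂ} (θ : Third T) : θ.der (X 0) = θ.h := by
  simp [Third.der, mkDerivation_X]
theorem Third.der_X1 {T : Finset ℂ} (θ : Third T) : θ.der (X 1) = pderiv 2 (Q3 T) := by
  simp [Third.der, mkDerivation_X]
theorem Third.der_X2 {T : Finset ℂ} (θ : Third T) : θ.der (X 2) = - pderiv 1 (Q3 T) := by
  simp [Third.der, mkDerivation_X]

theorem pderiv0_Q3 (T : Finset ℂ) : pderiv 0 (Q3 T) = 0 := by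
  have : ∀ T : Finset ℂ, pderiv 0 (∏ t ∈ T, (X 1 - C t * X 2 : S 3)) = 0 := by
    classical
    intro T
    induction T using Finset.induction_on with
    | empty => simp
    | insert t T ht ih =>
      rw [Finset.prod_insert ht, Derivation.leibniz, ih, map_sub, pderiv_X, Derivation.leibniz,
        pderiv_C, pderiv_X]
      simp
  unfold Q3
  rw [Derivation.leibniz, this, pderiv_X]
  simp

theorem Third.mem_pen3 {T : Finset ℂ} (θ : Third T) : θ.der ∈ logDer (pen3 T) := by
  apply linForm_cases3
  · rw [θ.der_X2]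
    have : (X 2 : S 3) ∣ Q3 T := dvd_mul_right _ _
    obtain ⟨q, hq⟩ := this
    rw [hq, Derivation.leibniz]
    simp [pderiv_X]
  · intro t ht
    rw [θ.der_X1, θ.der_X2]
    have : (X 1 - C t * X 2 : S 3) ∣ Q3 T :=
      Dvd.dvd.mul_left (Finset.dvd_prod_of_mem _ ht) _
    obtain ⟨q, hq⟩ := this
    rw [hq, Derivation.leibniz, Derivation.leibniz]
    have e1 : pderiv 2 (X 1 - C t * X 2 : S 3) = - C t := by
      rw [map_sub, pderiv_X, Derivation.leibniz, pderiv_C, pderiv_X]
      simp
    have e0 : pderiv 1 (X 1 - C t * X 2 : S 3) = 1 := by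
      rw [map_sub, pderiv_X, Derivation.leibniz, pderiv_C, pderiv_X]
      simp
    rw [e1, e0]
    refine ⟨pderiv 2 q + C t * pderiv 1 q, ?_⟩
    simp only [smul_eq_mul]
    ring

theorem exp_stage {T : Finset ℂ} (θ : Third T) {A : Set (Submodule ℂ (Fin 3 → ℂ))} {g : S 3}
    {j : ℕ} (hg : g.IsHomogeneous j) (hQ : IsQ A (g * Q3 T)) (hθ : θ.der ∈ logDer A)
    (hω : omg g ∈ logDer A) : IsFreeWithExp A {1, T.card, j} := by
  have hF := Q3_hom T
  have h := saito hQ ![euler 3, θ.der, omg g] (by
      intro i
      fin_cases i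
      · exact euler_mem _
      · exact hθ
      · exact hω) ![1, T.card, j] (by
      intro k i
      fin_cases k
      · change (euler 3 (X i)).IsHomogeneous 1
        unfold euler
        rw [mkDerivation_X]
        exact isHomogeneous_X _ _
      · change (θ.der (X i)).IsHomogeneous T.card
        fin_cases i
        · change (θ.der (X 0)).IsHomogeneous T.card
          rw [θ.der_X0]; exact θ.hom
        · change (θ.der (X 1)).IsHomogeneous T.card
          rw [θ.der_X1]; exact hF.pderiv
        · change (θ.der (X 2)).IsHomogeneous T.card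
          rw [θ.der_X2]; exact (hF.pderiv).neg
      · change (omg g (X i)).IsHomogeneous j
        fin_cases i
        · change (omg g (X 0)).IsHomogeneous j
          rw [omg_X0]; exact hg
        · change (omg g (X 1)).IsHomogeneous j
          rw [omg_X1]; exact isHomogeneous_zero _ _ _
        · change (omg g (X 2)).IsHomogeneous j
          rw [omg_X2]; exact isHomogeneous_zero _ _ _) (-(T.card + 1 : ℕ)) (by
        rw [neg_ne_zero]
        exact Nat.cast_ne_zero.mpr (Nat.succ_ne_zero T.card)) (by
        rw [Matrix.det_fin_three]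
        simp only [Matrix.of_apply, Matrix.cons_val_zero, Matrix.cons_val_one, Matrix.cons_val,
          θ.der_X0, θ.der_X1, θ.der_X2, omg_X0, omg_X1, omg_X2]
        have he := hF.sum_X_mul_pderiv
        rw [Fin.sum_univ_three, pderiv0_Q3] at he
        unfold euler
        rw [mkDerivation_X, mkDerivation_X, mkDerivation_X, map_neg]
        have h3 : (C ((T.card + 1 : ℕ) : ℂ) : S 3) * Q3 T = (T.card + 1) • Q3 T := by
          rw [nsmul_eq_mul]
          simp
        rw [neg_mul, mul_left_comm, h3, ← he]
        ring)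
  rw [val_map3] at h
  simpa using h

theorem pen3_card (T : Finset ℂ) : (pen3 T).Finite ∧ (pen3 T).ncard = T.card + 1 := by
  classical
  induction T using Finset.induction_on with
  | empty =>
    rw [pen3_empty]
    simp
  | insert t T ht ih =>
    obtain ⟨ih1, ih2⟩ := ih
    rw [pen3_insert, Finset.card_insert_of_notMem ht]
    have hnot : hyp ![0, 1, -t] ∉ pen3 T := (isQ3 T).notMem (ne3 t) (ndvd3 T t ht)
    exact ⟨ih1.insert _, by rw [Set.ncard_insert_of_notMem hnot ih1, ih2]⟩

/-- adding sections whose pairwise intersections lie on the pencil -/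
theorem add_sections {T : Finset ℂ} (θ : Third T) (τ : ℂ) (hτ : τ ∉ T) (l : List (ℂ × ℂ))
    (hgood : ∀ x ∈ l, linForm (bv x) ∣ θ.der (linForm (bv x)))
    (hpair : l.Pairwise (fun x y => hyp ![x.1 - y.1, x.2 - y.2] ∈ pen2 T ∧
      (x.1 - y.1) * τ + (x.2 - y.2) ≠ 0)) :
    (IsQ (aL T l) (gL l * Q3 T) ∧ θ.der ∈ logDer (aL T l) ∧
      (∀ H' ∈ pen3 T, H' ∈ aL T l) ∧
      (∀ H' ∈ aL T l, H' ∈ pen3 T ∨ ∃ y ∈ l, H' = hyp (bv y)) ∧
      (∀ c : S 3, omg (gL l * c) ∈ logDer (aL T l))) ∧
      InductivelyFree 3 (aL T l) ∧ (aL T l).Finite ∧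
      (aL T l).ncard = T.card + 1 + l.length := by
  induction l with
  | nil =>
    refine ⟨⟨?_, θ.mem_pen3, fun _ h => h, fun _ h => Or.inl h, ?_⟩, IF_pen3 T,
      (pen3_card T).1, (pen3_card T).2⟩
    · simp only [gL, one_mul]
      exact isQ3 T
    · intro c
      apply linForm_cases3
      · rw [omg_X2]; exact dvd_zero _
      · intro t _
        rw [omg_X1, omg_X2]; simp
  | cons x l ih =>
    obtain ⟨hp1, hp2⟩ := List.pairwise_cons.mp hpair
    obtain ⟨⟨hQ, hθ, hsub, hcases, hω⟩, hIF, hfin, hcard⟩ :=
      ih (fun y hy => hgood y (List.mem_cons_of_mem _ hy)) hp2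
    have hnd : ¬ linForm (bv x) ∣ gL l * Q3 T := by
      intro h
      have h1 := eval_eq_zero_of_dvd h (v := ![x.1 * τ + x.2, τ, 1]) (by
        unfold bv
        rw [mem_hyp3]
        simp only [Matrix.cons_val_zero, Matrix.cons_val_one, Matrix.cons_val]
        ring)
      rw [map_mul, eval_Q3] at h1
      have h2 : ∀ l' : List (ℂ × ℂ), (∀ y ∈ l', (x.1 - y.1) * τ + (x.2 - y.2) ≠ 0) →
          eval ![x.1 * τ + x.2, τ, 1] (gL l') ≠ 0 := by
        intro l'
        induction l' with
        | nil => intro _; simp [gL]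
        | cons y l' ih' =>
          intro hy
          unfold gL
          rw [map_mul]
          refine mul_ne_zero ?_ (ih' (fun z hz => hy z (List.mem_cons_of_mem _ hz)))
          have := hy y List.mem_cons_self
          rw [linForm_bv]
          simp only [map_sub, map_mul, eval_C, eval_X, Matrix.cons_val_zero, Matrix.cons_val_one,
            Matrix.cons_val]
          intro h0
          apply this
          linear_combination h0
      have h3 := h2 l (fun y hy => (hp1 y hy).2)
      have h4 : (![x.1 * τ + x.2, τ, 1] : Fin 3 → ℂ) 2 *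
          ∏ t ∈ T, ((![x.1 * τ + x.2, τ, 1] : Fin 3 → ℂ) 1 -
            t * (![x.1 * τ + x.2, τ, 1] : Fin 3 → ℂ) 2) ≠ 0 := by
        simp only [Matrix.cons_val_one, Matrix.cons_val, mul_one, one_mul]
        rw [Finset.prod_ne_zero_iff]
        intro t ht h0
        rw [sub_eq_zero] at h0
        exact hτ (h0 ▸ ht)
      exact (mul_ne_zero h3 h4) h1
    have hnot : hyp (bv x) ∉ aL T l := hQ.notMem (bv_ne x) hnd
    refine ⟨⟨?_, ?_, ?_, ?_, ?_⟩, ?_, hfin.insert _, ?_⟩
    · have := hQ.insert (bv_ne x) hnd
      unfold aL gL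
      rw [mul_assoc]
      exact this
    · exact logDer_insert hθ (bv_ne x) (hgood x List.mem_cons_self)
    · intro H' hH'
      exact Or.inr (hsub H' hH')
    · intro H' hH'
      rcases hH' with rfl | hH'
      · exact Or.inr ⟨x, List.mem_cons_self, rfl⟩
      · rcases hcases H' hH' with h | ⟨y, hy, rfl⟩
        · exact Or.inl h
        · exact Or.inr ⟨y, List.mem_cons_of_mem _ hy, rfl⟩
    · intro c
      have h1 := hω (linForm (bv x) * c)
      have h2 : gL (x :: l) * c = gL l * (linForm (bv x) * c) := by
        rw [gL]; ring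
      rw [h2]
      refine logDer_insert h1 (bv_ne x) ?_
      rw [der_linForm, Fin.sum_univ_three, omg_X0, omg_X1, omg_X2]
      refine ⟨C (bv x 0) * (gL l * c), ?_⟩
      ring
    · have hexp : IsFreeWithExp (aL T l) {1, T.card, l.length} := by
        refine exp_stage θ (gL_hom l) hQ hθ ?_
        have := hω 1
        rwa [mul_one] at this
      refine IF_insert hnot (sg x) (sg_inj x) (sg_range x) (B := pen2 T) ?_ hIF (IF_pen2 T) hexp
        (exp_pen2 T) ?_
      · ext L
        rw [Set.mem_image]
        constructor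
        · rintro (rfl | ⟨t, ht, rfl⟩)
          · exact ⟨_, hsub _ (Or.inl rfl), sg_comap1 x⟩
          · exact ⟨_, hsub _ (Or.inr ⟨t, ht, rfl⟩), sg_comap2 x t⟩
        · rintro ⟨H', hH', rfl⟩
          rcases hcases H' hH' with h | ⟨y, hy, rfl⟩
          · rcases h with rfl | ⟨t, ht, rfl⟩
            · left; exact sg_comap1 x
            · right; exact ⟨t, ht, (sg_comap2 x t).symm⟩
          · change (hyp (bv y)).comap (sg x) ∈ pen2 T
            rw [sg_comap3]
            exact (hp1 y hy).1
      · rw [Multiset.le_iff_exists_add]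
        refine ⟨{l.length}, ?_⟩
        simp only [Multiset.insert_eq_cons, Multiset.cons_add, Multiset.singleton_add]
    · change (insert (hyp (bv x)) (aL T l)).ncard = _
      rw [Set.ncard_insert_of_notMem hnot hfin, hcard, List.length_cons]
      rfl

end

end Pool.Agent.RFH
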