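import Pool.Agent.RFH.NotMem

namespace Pool.Agent.RFH

open MvPolynomial

noncomputable section

/-- `gg` as a monic polynomial in `w` -/
def gP : Polynomial (S 2) :=
  Polynomial.X * (Polynomial.X ^ 2 - Polynomial.C (X 0 ^ 2)) *
    (Polynomial.X ^ 2 - Polynomial.C (X 1 ^ 2))

theorem fse_X0 : finSuccEquiv ℂ 2 (X 0) = Polynomial.X := finSuccEquiv_X_zero
theorem fse_X1 : finSuccEquiv ℂ 2 (X 1) = Polynomial.C (X 0) := finSuccEquiv_X_succ (j := 0)
theorem fse_X2 : finSuccEquiv ℂ 2 (X 2) = Polynomial.C (X 1) := finSuccEquiv_X_succ (j := 1)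
theorem fse_C (c : ℂ) : finSuccEquiv ℂ 2 (C c) = Polynomial.C (C c) := by
  rw [show (C c : S 3) = algebraMap ℂ (S 3) c from rfl, AlgEquiv.commutes]
  rfl

theorem fse_gg : finSuccEquiv ℂ 2 gg = gP := by
  unfold gg gP
  simp [fse_X0, fse_X1, fse_X2]

theorem fse_eT (T : Finset ℂ) : finSuccEquiv ℂ 2 (eT T) = Polynomial.C (eR T) := by
  unfold eT eR
  rw [map_prod, map_prod]
  refine Finset.prod_congr rfl (fun t _ => ?_)
  rw [map_sub, map_mul, fse_X1, fse_X2, fse_C]
  simp

theorem gP_monic : gP.Monic := by
  unfold gP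
  refine Polynomial.Monic.mul (Polynomial.Monic.mul Polynomial.monic_X ?_) ?_
  · exact Polynomial.monic_X_pow_sub_C _ (by norm_num)
  · exact Polynomial.monic_X_pow_sub_C _ (by norm_num)

theorem gP_natDegree : gP.natDegree = 5 := by
  unfold gP
  rw [Polynomial.Monic.natDegree_mul, Polynomial.Monic.natDegree_mul, Polynomial.natDegree_X,
    Polynomial.natDegree_X_pow_sub_C, Polynomial.natDegree_X_pow_sub_C]
  · exact Polynomial.monic_X
  · exact Polynomial.monic_X_pow_sub_C _ (by norm_num)
  · exact Polynomial.Monic.mul Polynomial.monic_X (Polynomial.monic_X_pow_sub_C _ (by norm_num))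
  · exact Polynomial.monic_X_pow_sub_C _ (by norm_num)

theorem ev_gg (r a b : ℂ) : ev r a b gg =
    Polynomial.C (r * (r ^ 2 - a ^ 2) * (r ^ 2 - b ^ 2)) * Polynomial.X ^ 5 := by
  unfold gg
  simp only [map_mul, map_sub, map_pow, ev_X0, ev_X1, ev_X2]
  ring

theorem ev_qq (r a b : ℂ) : ev r a b qq =
    Polynomial.C ((a ^ 2 - b ^ 2) ^ 2 + r ^ 2 * (a ^ 2 + b ^ 2) - 2 * r ^ 4) *
      Polynomial.X ^ 4 := by
  unfold qq
  simp only [map_mul, map_sub, map_add, map_pow, ev_X0, ev_X1, ev_X2, map_ofNat]
  ring

theorem ev_eT (r a b : ℂ) (T : Finset ℂ) : ev r a b (eT T) = psi a b (eR T) := by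
  rw [ev_eq, fse_eT, Polynomial.map_C, Polynomial.eval_C]
  rfl

/-- decomposition of the elements of the singular ideal -/
theorem decomp (T : Finset ℂ) (h0 : (0 : ℂ) ∉ T) (h1 : (1 : ℂ) ∉ T) (h2 : (-1 : ℂ) ∉ T)
    (f : S 3) (hf : f ∈ singIdeal (arr T)) :
    ∃ u r : S 3, f = gg * u + eT T * r ∧ (∀ p ∈ Z0, ev p.1 p.2.1 p.2.2 r = 0) ∧
      ev 1 0 0 r = 0 := by
  have key : ∀ t ∈ T, t ≠ 0 ∧ t ≠ 1 ∧ t ≠ -1 := by
    intro t ht
    refine ⟨?_, ?_, ?_⟩ <;> rintro rfl <;> contradiction
  obtain ⟨F, hF⟩ : ∃ F, F = finSuccEquiv ℂ 2 f := ⟨_, rfl⟩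
  have hdiv := Polynomial.modByMonic_add_div F gP
  obtain ⟨Rm, hRm⟩ : ∃ Rm, Rm = F %ₘ gP := ⟨_, rfl⟩
  obtain ⟨U, hU⟩ : ∃ U, U = F /ₘ gP := ⟨_, rfl⟩
  rw [← hRm, ← hU] at hdiv
  have hdeg : Rm.degree < 5 := by
    have h := Polynomial.degree_modByMonic_lt F gP_monic
    rw [← hRm, Polynomial.degree_eq_natDegree gP_monic.ne_zero, gP_natDegree] at h
    exact_mod_cast h
  have hRf : Rm = finSuccEquiv ℂ 2 (f - gg * (finSuccEquiv ℂ 2).symm U) := by
    rw [map_sub, map_mul, fse_gg, ← hF, AlgEquiv.apply_symm_apply, ← hdiv]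
    ring
  -- the coefficients are divisible by `eR T`
  have hcoef : ∀ k, eR T ∣ Rm.coeff k := by
    intro k
    apply eR_dvd
    intro t ht
    obtain ⟨k0, k1, k2⟩ := key t ht
    have hz : Rm.map (psi t 1 : S 2 →+* Polynomial ℂ) = 0 := by
      let g : Fin 5 → Polynomial ℂ := ![Polynomial.C 0 * Polynomial.X,
        Polynomial.C t * Polynomial.X, Polynomial.C (-t) * Polynomial.X,
        Polynomial.C 1 * Polynomial.X, Polynomial.C (-1) * Polynomial.X]
      have hginj : Function.Injective g := by
        have hv : Function.Injective (![0, t, -t, 1, -1] : Fin 5 → ℂ) := by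
          have e1 : t ≠ -t := by
            intro h
            apply k0
            have : (2 : ℂ) * t = 0 := by linear_combination h
            exact (mul_eq_zero.mp this).resolve_left (by norm_num)
          have e2 : -t ≠ 1 := by
            intro h; exact k2 (by linear_combination -h)
          have e3 : -t ≠ -1 := by
            intro h; exact k1 (by linear_combination -h)
          have e4 : (1 : ℂ) ≠ -1 := by norm_num
          intro i j hij
          fin_cases i <;> fin_cases j <;> simp at hij ⊢ <;>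
            first
            | exact absurd hij k0
            | exact absurd hij.symm k0
            | exact absurd hij k1
            | exact absurd hij.symm k1
            | exact absurd hij k2
            | exact absurd hij.symm k2
            | exact absurd hij e1
            | exact absurd hij.symm e1
            | exact absurd hij e2
            | exact absurd hij.symm e2
            | exact absurd hij e3
            | exact absurd hij.symm e3
            | exact absurd hij e4
            | exact absurd hij.symm e4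
        intro i j hij
        apply hv
        have h3 : ∀ i, (g i).coeff 1 = (![0, t, -t, 1, -1] : Fin 5 → ℂ) i := by
          intro i
          fin_cases i <;> simp [g]
        rw [← h3, ← h3, hij]
      refine Polynomial.eq_zero_of_natDegree_lt_card_of_eval_eq_zero _ hginj ?_ ?_
      · intro i
        have h5 : ∀ r : ℂ, (r = 0 ∨ r = t ∨ r = -t ∨ r = 1 ∨ r = -1) →
            (Rm.map (psi t 1 : S 2 →+* Polynomial ℂ)).eval (Polynomial.C r * Polynomial.X) = 0 := by
          intro r hr
          rw [hRf, ← ev_eq, map_sub, map_mul, ev_T hf ht hr, ev_gg]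
          have : r * (r ^ 2 - t ^ 2) * (r ^ 2 - 1 ^ 2) = 0 := by
            rcases hr with rfl | rfl | rfl | rfl | rfl <;> ring
          rw [this]
          simp
        fin_cases i
        · exact h5 0 (by simp)
        · exact h5 t (by simp)
        · exact h5 (-t) (by simp)
        · exact h5 1 (by simp)
        · exact h5 (-1) (by simp)
      · rw [Fintype.card_fin]
        by_cases hR0 : Rm.map (psi t 1 : S 2 →+* Polynomial ℂ) = 0
        · rw [hR0]; simp
        · refine (Polynomial.natDegree_lt_iff_degree_lt hR0).mpr ?_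
          exact lt_of_le_of_lt Polynomial.degree_map_le hdeg
    have := congrArg (fun p => Polynomial.coeff p k) hz
    simpa [Polynomial.coeff_map] using this
  obtain ⟨R', hR'⟩ : Polynomial.C (eR T) ∣ Rm := (Polynomial.C_dvd_iff_dvd_coeff _ _).mpr hcoef
  have heR : eR T ≠ 0 := by
    intro h
    have := psi_eR 1 0 T (by intro t _; simp)
    rw [h] at this
    simp at this
  have hdeg' : R'.degree < 5 := by
    have h : Rm.degree = R'.degree := by
      rw [hR', Polynomial.degree_mul, Polynomial.degree_C heR, zero_add]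
    rw [← h]; exact hdeg
  obtain ⟨r, hr⟩ : ∃ r, r = (finSuccEquiv ℂ 2).symm R' := ⟨_, rfl⟩
  have hr2 : finSuccEquiv ℂ 2 r = R' := by rw [hr, AlgEquiv.apply_symm_apply]
  have hfr : f = gg * ((finSuccEquiv ℂ 2).symm U) + eT T * r := by
    apply (finSuccEquiv ℂ 2).injective
    rw [map_add, map_mul, map_mul, fse_gg, fse_eT, hr2, AlgEquiv.apply_symm_apply, ← hR', ← hF,
      ← hdiv]
    ring
  have hZ : ∀ p ∈ Z0, ev p.1 p.2.1 p.2.2 r = 0 := by
    intro p hp
    have e1 := ev_Z hf hp
    rw [hfr, map_add, map_mul, map_mul, ev_gg] at e1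
    have e2 : p.1 * (p.1 ^ 2 - p.2.1 ^ 2) * (p.1 ^ 2 - p.2.2 ^ 2) = 0 := by
      simp only [Z0, Set.mem_insert_iff, Set.mem_singleton_iff] at hp
      rcases hp with rfl | rfl | rfl | rfl | rfl | rfl | rfl | rfl | rfl | rfl | rfl | rfl <;>
        norm_num
    rw [e2] at e1
    simp only [map_zero, zero_mul, zero_add] at e1
    refine (mul_eq_zero.mp e1).resolve_left ?_
    rw [ev_eT]
    apply psi_eR
    intro t ht
    obtain ⟨k0, k1, k2⟩ := key t ht
    have k1' : (1 : ℂ) - t ≠ 0 := sub_ne_zero.mpr (Ne.symm k1)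
    have k2' : (1 : ℂ) + t ≠ 0 := by
      intro h; exact k2 (by linear_combination h)
    simp only [Z0, Set.mem_insert_iff, Set.mem_singleton_iff] at hp
    rcases hp with rfl | rfl | rfl | rfl | rfl | rfl | rfl | rfl | rfl | rfl | rfl | rfl <;>
      simp [k0, k1', k2']
  refine ⟨_, r, hfr, hZ, ?_⟩
  -- vanishing at the centre
  have z : ∀ a b c : ℂ, (a, b, c) ∈ Z0 → ev a b c r = 0 := fun a b c h => hZ (a, b, c) h
  have z01 := z 0 0 1 (by simp [Z0])
  have z02 := z 1 0 1 (by simp [Z0])
  have z03 := z (-1) 0 1 (by simp [Z0])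
  have z04 := z 0 1 0 (by simp [Z0])
  have z05 := z 1 1 0 (by simp [Z0])
  have z06 := z (-1) 1 0 (by simp [Z0])
  have z07 := z 0 1 1 (by simp [Z0])
  have z08 := z 1 1 1 (by simp [Z0])
  have z09 := z (-1) 1 1 (by simp [Z0])
  have z10 := z 0 1 (-1) (by simp [Z0])
  have z11 := z 1 1 (-1) (by simp [Z0])
  have z12 := z (-1) 1 (-1) (by simp [Z0])
  ext k
  rw [Polynomial.coeff_zero]
  have i4 := ident4 r
  have i3 := ident3 r
  have i2 := ident2 r
  have i1 := ident1 r
  have i0 := ident0 r
  rw [z01, z02, z03, z04, z05, z06, z07, z08, z09, z10, z11, z12] at i4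
  rw [z02, z03, z05, z06, z08, z09, z11, z12] at i3
  rw [z04, z05, z06] at i2
  rw [z05, z06] at i1
  rw [z05] at i0
  simp only [Polynomial.coeff_zero] at i4 i3 i2 i1 i0
  by_cases hk : k < 5
  · interval_cases k
    · exact i0.symm
    · linear_combination (-1 / 2) * i1
    · linear_combination (-1 / 2) * i2
    · linear_combination (1 / 4) * i3
    · linear_combination (1 / 4) * i4
  · -- degree bound
    rw [ev_eq, hr2]
    have hd : ((R'.map (psi 0 0 : S 2 →+* Polynomial ℂ)).eval
        (Polynomial.C 1 * Polynomial.X)).natDegree < k := by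
      have hR5 : R'.natDegree < 5 := by
        by_cases h : R' = 0
        · rw [h]; simp
        · exact (Polynomial.natDegree_lt_iff_degree_lt h).mpr hdeg'
      rw [Polynomial.eval_eq_sum_range' (n := 5)]
      · refine lt_of_le_of_lt (Polynomial.natDegree_sum_le_of_forall_le (n := 4) _ _ ?_) (by omega)
        intro i hi
        rw [Finset.mem_range] at hi
        rw [Polynomial.coeff_map]
        have hc : (psi 0 0 : S 2 →+* Polynomial ℂ) (R'.coeff i) =
            Polynomial.C (constantCoeff (R'.coeff i)) := by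
          have : ∀ q : S 2, psi 0 0 q = Polynomial.C (constantCoeff q) := by
            intro q
            induction q using MvPolynomial.induction_on with
            | C c => simp [psi_C]
            | add p q hp hq => simp [hp, hq]
            | mul_X p i hp =>
              fin_cases i
              · simp [psi_X0]
              · simp [psi_X1]
          exact this _
        rw [hc]
        refine (Polynomial.natDegree_C_mul_le _ _).trans ?_
        refine Polynomial.natDegree_pow_le.trans ?_
        have : (Polynomial.C (1 : ℂ) * Polynomial.X).natDegree = 1 := by simp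
        rw [this]
        omega
      · exact lt_of_le_of_lt Polynomial.natDegree_map_le hR5
    exact Polynomial.coeff_eq_zero_of_natDegree_lt hd

end

end Pool.Agent.RFH
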