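import Pool.Agent.RFH.Ev

namespace Pool.Agent.RFH

open MvPolynomial

noncomputable section

/-- vanishing on a line contained in two different members of the arrangement -/
theorem ev_eq_zero_of_mem {T : Finset ℂ} {f : S 3} (hf : f ∈ singIdeal (arr T))
    {H H' : Submodule ℂ (Fin 3 → ℂ)} (hH : H ∈ arr T) (hH' : H' ∈ arr T) (hne : H ≠ H')
    {r a b : ℂ} (h1 : ∀ l : ℂ, ![r * l, a * l, b * l] ∈ H)
    (h2 : ∀ l : ℂ, ![r * l, a * l, b * l] ∈ H') : ev r a b f = 0 := by
  have hf' : f ∈ idealOf (H ⊓ H') := by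
    unfold singIdeal at hf
    simp only [Submodule.mem_iInf] at hf
    exact hf _ ⟨H, hH, H', hH', hne, rfl⟩
  apply Polynomial.funext
  intro l
  rw [eval_ev, Polynomial.eval_zero]
  exact hf' _ (Submodule.mem_inf.mpr ⟨h1 l, h2 l⟩)

theorem hyp_ne {n : ℕ} {a a' : Fin n → ℂ} (v : Fin n → ℂ) (h : v ∈ hyp a) (h' : v ∉ hyp a') :
    hyp a ≠ hyp a' := by
  intro he
  rw [he] at h
  exact h' h

theorem mem_arr_nine {T : Finset ℂ} {H : Submodule ℂ (Fin 3 → ℂ)}
    (h : H = hyp ![1, 0, 0] ∨ H = hyp ![0, 1, 0] ∨ H = hyp ![0, 0, 1] ∨ H = hyp ![1, -1, 0] ∨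
      H = hyp ![1, 1, 0] ∨ H = hyp ![1, 0, -1] ∨ H = hyp ![1, 0, 1] ∨ H = hyp ![0, 1, -1] ∨
      H = hyp ![0, 1, 1]) : H ∈ arr T := by
  left
  simpa using h

theorem mem_arr_T {T : Finset ℂ} {t : ℂ} (h : t ∈ T) : hyp ![0, 1, -t] ∈ arr T := by
  right
  exact ⟨t, by simpa using h, rfl⟩

/-- the five points on the line `x = t y` -/
theorem ev_T {T : Finset ℂ} {f : S 3} (hf : f ∈ singIdeal (arr T)) {t : ℂ} (ht : t ∈ T) {r : ℂ}
    (hr : r = 0 ∨ r = t ∨ r = -t ∨ r = 1 ∨ r = -1) : ev r t 1 f = 0 := by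
  have hA := mem_arr_T ht
  have k : ∀ l : ℂ, ![r * l, t * l, 1 * l] ∈ hyp ![0, 1, -t] := by
    intro l
    rw [mem_hyp3]
    simp
  rcases hr with rfl | rfl | rfl | rfl | rfl
  · refine ev_eq_zero_of_mem hf (H := hyp ![1, 0, 0]) (mem_arr_nine (by simp)) hA
      (hyp_ne ![0, 1 + t, 1] (by rw [mem_hyp3]; simp) (by rw [mem_hyp3]; simp)) ?_ k
    intro l; rw [mem_hyp3]; simp
  · refine ev_eq_zero_of_mem hf (H := hyp ![1, -1, 0]) (mem_arr_nine (by simp)) hA
      (hyp_ne ![1 + r, 1 + r, 1] (by rw [mem_hyp3]; simp) (by rw [mem_hyp3]; simp)) ?_ k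
    intro l; rw [mem_hyp3]; simp
  · refine ev_eq_zero_of_mem hf (H := hyp ![1, 1, 0]) (mem_arr_nine (by simp)) hA
      (hyp_ne ![-(1 + t), 1 + t, 1] (by rw [mem_hyp3]; simp) (by rw [mem_hyp3]; simp)) ?_ k
    intro l; rw [mem_hyp3]; simp
  · refine ev_eq_zero_of_mem hf (H := hyp ![1, 0, -1]) (mem_arr_nine (by simp)) hA
      (hyp_ne ![1, 1 + t, 1] (by rw [mem_hyp3]; simp) (by rw [mem_hyp3]; simp)) ?_ k
    intro l; rw [mem_hyp3]; simp
  · refine ev_eq_zero_of_mem hf (H := hyp ![1, 0, 1]) (mem_arr_nine (by simp)) hA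
      (hyp_ne ![-1, 1 + t, 1] (by rw [mem_hyp3]; simp) (by rw [mem_hyp3]; simp)) ?_ k
    intro l; rw [mem_hyp3]; simp

/-- the twelve points of `B_3` away from the pencil centre -/
def Z0 : Set (ℂ × ℂ × ℂ) :=
  {(0, 0, 1), (1, 0, 1), (-1, 0, 1), (0, 1, 0), (1, 1, 0), (-1, 1, 0),
    (0, 1, 1), (1, 1, 1), (-1, 1, 1), (0, 1, -1), (1, 1, -1), (-1, 1, -1)}

theorem ev_Z {T : Finset ℂ} {f : S 3} (hf : f ∈ singIdeal (arr T)) {p : ℂ × ℂ × ℂ}
    (hp : p ∈ Z0) : ev p.1 p.2.1 p.2.2 f = 0 := by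
  simp only [Z0, Set.mem_insert_iff, Set.mem_singleton_iff] at hp
  rcases hp with rfl | rfl | rfl | rfl | rfl | rfl | rfl | rfl | rfl | rfl | rfl | rfl
  · exact ev_eq_zero_of_mem hf (H := hyp ![0, 1, 0]) (H' := hyp ![1, 0, 0])
      (mem_arr_nine (by simp)) (mem_arr_nine (by simp))
      (hyp_ne ![1, 0, 0] (by rw [mem_hyp3]; simp) (by rw [mem_hyp3]; simp))
      (by intro l; rw [mem_hyp3]; simp) (by intro l; rw [mem_hyp3]; simp)
  · exact ev_eq_zero_of_mem hf (H := hyp ![0, 1, 0]) (H' := hyp ![1, 0, -1])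
      (mem_arr_nine (by simp)) (mem_arr_nine (by simp))
      (hyp_ne ![1, 0, 0] (by rw [mem_hyp3]; simp) (by rw [mem_hyp3]; simp))
      (by intro l; rw [mem_hyp3]; simp) (by intro l; rw [mem_hyp3]; simp)
  · exact ev_eq_zero_of_mem hf (H := hyp ![0, 1, 0]) (H' := hyp ![1, 0, 1])
      (mem_arr_nine (by simp)) (mem_arr_nine (by simp))
      (hyp_ne ![1, 0, 0] (by rw [mem_hyp3]; simp) (by rw [mem_hyp3]; simp))
      (by intro l; rw [mem_hyp3]; simp) (by intro l; rw [mem_hyp3]; simp)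
  · exact ev_eq_zero_of_mem hf (H := hyp ![0, 0, 1]) (H' := hyp ![1, 0, 0])
      (mem_arr_nine (by simp)) (mem_arr_nine (by simp))
      (hyp_ne ![1, 0, 0] (by rw [mem_hyp3]; simp) (by rw [mem_hyp3]; simp))
      (by intro l; rw [mem_hyp3]; simp) (by intro l; rw [mem_hyp3]; simp)
  · exact ev_eq_zero_of_mem hf (H := hyp ![0, 0, 1]) (H' := hyp ![1, -1, 0])
      (mem_arr_nine (by simp)) (mem_arr_nine (by simp))
      (hyp_ne ![1, 0, 0] (by rw [mem_hyp3]; simp) (by rw [mem_hyp3]; simp))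
      (by intro l; rw [mem_hyp3]; simp) (by intro l; rw [mem_hyp3]; simp)
  · exact ev_eq_zero_of_mem hf (H := hyp ![0, 0, 1]) (H' := hyp ![1, 1, 0])
      (mem_arr_nine (by simp)) (mem_arr_nine (by simp))
      (hyp_ne ![1, 0, 0] (by rw [mem_hyp3]; simp) (by rw [mem_hyp3]; simp))
      (by intro l; rw [mem_hyp3]; simp) (by intro l; rw [mem_hyp3]; simp)
  · exact ev_eq_zero_of_mem hf (H := hyp ![0, 1, -1]) (H' := hyp ![1, 0, 0])
      (mem_arr_nine (by simp)) (mem_arr_nine (by simp))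
      (hyp_ne ![1, 0, 0] (by rw [mem_hyp3]; simp) (by rw [mem_hyp3]; simp))
      (by intro l; rw [mem_hyp3]; simp) (by intro l; rw [mem_hyp3]; simp)
  · exact ev_eq_zero_of_mem hf (H := hyp ![0, 1, -1]) (H' := hyp ![1, -1, 0])
      (mem_arr_nine (by simp)) (mem_arr_nine (by simp))
      (hyp_ne ![1, 0, 0] (by rw [mem_hyp3]; simp) (by rw [mem_hyp3]; simp))
      (by intro l; rw [mem_hyp3]; simp) (by intro l; rw [mem_hyp3]; simp)
  · exact ev_eq_zero_of_mem hf (H := hyp ![0, 1, -1]) (H' := hyp ![1, 1, 0])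
      (mem_arr_nine (by simp)) (mem_arr_nine (by simp))
      (hyp_ne ![1, 0, 0] (by rw [mem_hyp3]; simp) (by rw [mem_hyp3]; simp))
      (by intro l; rw [mem_hyp3]; simp) (by intro l; rw [mem_hyp3]; simp)
  · exact ev_eq_zero_of_mem hf (H := hyp ![0, 1, 1]) (H' := hyp ![1, 0, 0])
      (mem_arr_nine (by simp)) (mem_arr_nine (by simp))
      (hyp_ne ![1, 0, 0] (by rw [mem_hyp3]; simp) (by rw [mem_hyp3]; simp))
      (by intro l; rw [mem_hyp3]; simp) (by intro l; rw [mem_hyp3]; simp)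
  · exact ev_eq_zero_of_mem hf (H := hyp ![0, 1, 1]) (H' := hyp ![1, -1, 0])
      (mem_arr_nine (by simp)) (mem_arr_nine (by simp))
      (hyp_ne ![1, 0, 0] (by rw [mem_hyp3]; simp) (by rw [mem_hyp3]; simp))
      (by intro l; rw [mem_hyp3]; simp) (by intro l; rw [mem_hyp3]; simp)
  · exact ev_eq_zero_of_mem hf (H := hyp ![0, 1, 1]) (H' := hyp ![1, 1, 0])
      (mem_arr_nine (by simp)) (mem_arr_nine (by simp))
      (hyp_ne ![1, 0, 0] (by rw [mem_hyp3]; simp) (by rw [mem_hyp3]; simp))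
      (by intro l; rw [mem_hyp3]; simp) (by intro l; rw [mem_hyp3]; simp)

/-- product of the extra forms, in two variables -/
def eR (T : Finset ℂ) : S 2 := ∏ t ∈ T, (X 0 - C t * X 1)

theorem psi_ker (t : ℂ) (r : S 2) (h : psi t 1 r = 0) : (X 0 - C t * X 1 : S 2) ∣ r := by
  have key : ∀ r : S 2, (X 0 - C t * X 1 : S 2) ∣ r - Polynomial.aeval (X 1 : S 2) (psi t 1 r) := by
    intro r
    induction r using MvPolynomial.induction_on with
    | C c =>
      rw [psi_C, Polynomial.aeval_C]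
      simp [MvPolynomial.algebraMap_eq]
    | add p q hp hq =>
      have := dvd_add hp hq
      rw [map_add, map_add]
      convert this using 1
      ring
    | mul_X p i hp =>
      rw [map_mul, map_mul]
      fin_cases i
      · have h2 : (Polynomial.aeval (X 1 : S 2)) (psi t 1 (X 0)) = C t * X 1 := by
          rw [psi_X0]; simp [MvPolynomial.algebraMap_eq]
        simp only [Fin.zero_eta]
        rw [h2]
        have h3 : p * X 0 - (Polynomial.aeval (X 1 : S 2)) (psi t 1 p) * (C t * X 1) =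
          (p - (Polynomial.aeval (X 1 : S 2)) (psi t 1 p)) * (C t * X 1) +
            (X 0 - C t * X 1) * p := by ring
        rw [h3]
        exact dvd_add (Dvd.dvd.mul_right hp _) (dvd_mul_right _ _)
      · have h2 : (Polynomial.aeval (X 1 : S 2)) (psi t 1 (X 1)) = X 1 := by
          rw [psi_X1]; simp
        simp only [Fin.mk_one]
        rw [h2]
        have h3 : p * X 1 - (Polynomial.aeval (X 1 : S 2)) (psi t 1 p) * (X 1) =
          (p - (Polynomial.aeval (X 1 : S 2)) (psi t 1 p)) * (X 1) := by ring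
        rw [h3]
        exact Dvd.dvd.mul_right hp _
  have := key r
  rw [h] at this
  simpa using this

theorem psi_eR (a b : ℂ) (T : Finset ℂ) (h : ∀ t ∈ T, a - t * b ≠ 0) : psi a b (eR T) ≠ 0 := by
  unfold eR
  rw [map_prod, Finset.prod_ne_zero_iff]
  intro t ht
  have h2 : psi a b (X 0 - C t * X 1) = Polynomial.C (a - t * b) * Polynomial.X := by
    rw [map_sub, map_mul, psi_X0, psi_X1, psi_C]
    simp only [map_sub, map_mul]
    ring
  rw [h2]
  exact mul_ne_zero (Polynomial.C_ne_zero.mpr (h t ht)) Polynomial.X_ne_zero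

theorem eR_dvd (T : Finset ℂ) (r : S 2) (h : ∀ t ∈ T, psi t 1 r = 0) : eR T ∣ r := by
  classical
  induction T using Finset.induction_on generalizing r with
  | empty => simp [eR]
  | insert t T ht ih =>
    obtain ⟨r', hr'⟩ := psi_ker t r (h t (Finset.mem_insert_self t T))
    have h2 : eR T ∣ r' := by
      apply ih
      intro t' ht'
      have h3 := h t' (Finset.mem_insert_of_mem ht')
      rw [hr', map_mul] at h3
      have h4 : psi t' 1 (X 0 - C t * X 1) ≠ 0 := by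
        have := psi_eR t' 1 {t} (by
          intro s hs
          rw [Finset.mem_singleton] at hs
          subst hs
          rw [mul_one]
          refine sub_ne_zero.mpr ?_
          rintro rfl
          exact ht ht')
        simpa [eR] using this
      exact (mul_eq_zero.mp h3).resolve_left h4
    obtain ⟨r'', hr''⟩ := h2
    refine ⟨r'', ?_⟩
    rw [hr', hr'']
    simp only [eR, Finset.prod_insert ht]
    ring

end

end Pool.Agent.RFH
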