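import Pool.Agent.RFH.Saito

namespace Pool.Agent.RFH

open MvPolynomial

noncomputable section

theorem exists_e {n : ℕ} (H : Submodule ℂ (Fin (n + 1) → ℂ))
    (σ : (Fin n → ℂ) →ₗ[ℂ] (Fin (n + 1) → ℂ)) (hinj : Function.Injective σ)
    (hr : LinearMap.range σ = H) :
    ∃ e : H ≃ₗ[ℂ] (Fin n → ℂ), ∀ H' : Submodule ℂ (Fin (n + 1) → ℂ),
      (H'.comap H.subtype).map (e : H →ₗ[ℂ] (Fin n → ℂ)) = H'.comap σ := by
  subst hr
  refine ⟨(LinearEquiv.ofInjective σ hinj).symm, ?_⟩
  intro H'
  ext v
  simp only [Submodule.mem_map, Submodule.mem_comap]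
  constructor
  · rintro ⟨x, hx, rfl⟩
    have : σ ((LinearEquiv.ofInjective σ hinj).symm x) = (x : Fin (n + 1) → ℂ) := by
      have h := congrArg Subtype.val ((LinearEquiv.ofInjective σ hinj).apply_symm_apply x)
      exact h
    change σ ((LinearEquiv.ofInjective σ hinj).symm x) ∈ H'
    rw [this]
    exact hx
  · intro hv
    refine ⟨LinearEquiv.ofInjective σ hinj v, ?_, ?_⟩
    · exact hv
    · exact (LinearEquiv.ofInjective σ hinj).symm_apply_apply v

theorem IF_insert {n : ℕ} {A : Set (Submodule ℂ (Fin (n + 1) → ℂ))}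
    {H : Submodule ℂ (Fin (n + 1) → ℂ)} (hH : H ∉ A)
    (σ : (Fin n → ℂ) →ₗ[ℂ] (Fin (n + 1) → ℂ)) (hinj : Function.Injective σ)
    (hr : LinearMap.range σ = H) {B : Set (Submodule ℂ (Fin n → ℂ))}
    (hB : B = (fun H' : Submodule ℂ (Fin (n + 1) → ℂ) => H'.comap σ) '' A) {m' m'' : Multiset ℕ}
    (hA : InductivelyFree (n + 1) A) (hBf : InductivelyFree n B)
    (hm' : IsFreeWithExp A m') (hm'' : IsFreeWithExp B m'') (hle : m'' ≤ m') :
    InductivelyFree (n + 1) (insert H A) := by
  obtain ⟨e, he⟩ := exists_e H σ hinj hr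
  have h1 : (insert H A) \ {H} = A := by
    ext L
    simp only [Set.mem_sdiff, Set.mem_insert_iff, Set.mem_singleton_iff]
    constructor
    · rintro ⟨h | h, h'⟩
      · exact absurd h h'
      · exact h
    · intro h
      refine ⟨Or.inr h, ?_⟩
      rintro rfl
      exact hH h
  have h2 : restr (insert H A) H e = B := by
    rw [hB]
    ext L
    simp only [restr, Set.mem_ofPred_eq, Set.mem_image]
    constructor
    · rintro ⟨H', hH', hne, rfl⟩
      rcases hH' with h | h
      · exact absurd h hne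
      · exact ⟨H', h, (he H').symm⟩
    · rintro ⟨H', hH', rfl⟩
      refine ⟨H', Or.inr hH', ?_, (he H').symm⟩
      rintro rfl
      exact hH hH'
  refine InductivelyFree.add n (insert H A) H e m' m'' (Set.mem_insert _ _) ?_ ?_ ?_ ?_ hle
  · rw [h1]; exact hA
  · rw [h2]; exact hBf
  · rw [h1]; exact hm'
  · rw [h2]; exact hm''

/-- the Euler derivation -/
def euler (n : ℕ) : Derivation ℂ (S n) (S n) := mkDerivation ℂ (fun i => X i)

theorem euler_mem {n : ℕ} (A : Set (Submodule ℂ (Fin n → ℂ))) : euler n ∈ logDer A := by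
  intro a _ _
  rw [der_linForm]
  have : ∑ i, C (a i) * euler n (X i) = linForm a := by
    unfold linForm euler
    refine Finset.sum_congr rfl (fun i _ => ?_)
    rw [mkDerivation_X]
  rw [this]

theorem val_map3 (d : Fin 3 → ℕ) : (Finset.univ : Finset (Fin 3)).val.map d = {d 0, d 1, d 2} := by
  rw [Fin.univ_val_map]; rfl

theorem val_map2 (d : Fin 2 → ℕ) : (Finset.univ : Finset (Fin 2)).val.map d = {d 0, d 1} := by
  rw [Fin.univ_val_map]; rfl

theorem val_map1 (d : Fin 1 → ℕ) : (Finset.univ : Finset (Fin 1)).val.map d = {d 0} := by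
  rw [Fin.univ_val_map]; rfl

/-- the empty arrangement -/
theorem exp_empty (n : ℕ) : IsFreeWithExp (∅ : Set (Submodule ℂ (Fin n → ℂ)))
    ((Finset.univ : Finset (Fin n)).val.map (fun _ => 0)) := by
  refine saito (IsQ.empty n) (fun i => mkDerivation ℂ (fun j => if i = j then (1 : S n) else 0))
    (fun i a _ h => absurd h (Set.notMem_empty _)) _ ?_ 1 one_ne_zero ?_
  · intro j i
    rw [mkDerivation_X]
    split_ifs
    · exact isHomogeneous_one _ _
    · exact isHomogeneous_zero _ _ _
  · have : (Matrix.of fun i j => (mkDerivation ℂ (fun j => if i = j then (1 : S n) else 0)) (X j)) =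
      (1 : Matrix (Fin n) (Fin n) (S n)) := by
      ext i j
      simp [mkDerivation_X, Matrix.one_apply]
    rw [this, Matrix.det_one]
    simp

/-- one-dimensional case -/
theorem IF_one : InductivelyFree 1 ({hyp ![1]} : Set (Submodule ℂ (Fin 1 → ℂ))) ∧
    IsFreeWithExp ({hyp ![1]} : Set (Submodule ℂ (Fin 1 → ℂ))) {1} := by
  have hb : (![1] : Fin 1 → ℂ) ≠ 0 := by
    intro h; simpa using congrFun h 0
  have hnd : ¬ linForm (![1] : Fin 1 → ℂ) ∣ (1 : S 1) := by
    intro h
    have := eval_eq_zero_of_dvd h (v := 0) (Submodule.zero_mem _)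
    simp at this
  constructor
  · have h := IF_insert (n := 0) (A := ∅) (H := hyp ![1]) (Set.notMem_empty _) 0
      (by intro a b _; exact Subsingleton.elim _ _)
      (by
        ext v
        simp only [LinearMap.range_zero, Submodule.mem_bot, mem_hyp]
        constructor
        · rintro rfl; simp
        · intro h; funext i; fin_cases i; simpa using h)
      (B := ∅) (by simp) (InductivelyFree.empty 1) (InductivelyFree.empty 0)
      (exp_empty 1) (exp_empty 0) (by simp)
    simpa using h
  · have h := saito (IsQ.insert (IsQ.empty 1) hb hnd) (fun _ => euler 1) (fun _ => euler_mem _)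
      (fun _ => 1) (by
        intro j i
        unfold euler
        rw [mkDerivation_X]
        exact isHomogeneous_X _ _) 1 one_ne_zero (by
        rw [Matrix.det_fin_one]
        simp [euler, mkDerivation_X, linForm])
    rw [val_map1] at h
    simpa using h

/-- pencils in the plane and in space -/
def pen2 (T : Finset ℂ) : Set (Submodule ℂ (Fin 2 → ℂ)) :=
  insert (hyp ![0, 1]) ((fun t : ℂ => hyp ![1, -t]) '' (T : Set ℂ))

def pen3 (T : Finset ℂ) : Set (Submodule ℂ (Fin 3 → ℂ)) :=
  insert (hyp ![0, 0, 1]) ((fun t : ℂ => hyp ![0, 1, -t]) '' (T : Set ℂ))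

def Q2 (T : Finset ℂ) : S 2 := X 1 * ∏ t ∈ T, (X 0 - C t * X 1)

def Q3 (T : Finset ℂ) : S 3 := X 2 * ∏ t ∈ T, (X 1 - C t * X 2)

theorem pen2_empty : pen2 ∅ = insert (hyp ![0, 1]) ∅ := by simp [pen2]
theorem pen3_empty : pen3 ∅ = insert (hyp ![0, 0, 1]) ∅ := by simp [pen3]

theorem pen2_insert (T : Finset ℂ) (t : ℂ) [DecidableEq ℂ] :
    pen2 (insert t T) = insert (hyp ![1, -t]) (pen2 T) := by
  unfold pen2
  rw [Finset.coe_insert, Set.image_insert_eq, Set.insert_comm]

theorem pen3_insert (T : Finset ℂ) (t : ℂ) [DecidableEq ℂ] :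
    pen3 (insert t T) = insert (hyp ![0, 1, -t]) (pen3 T) := by
  unfold pen3
  rw [Finset.coe_insert, Set.image_insert_eq, Set.insert_comm]

theorem linForm2 (a b : ℂ) : linForm ![a, b] = C a * X 0 + C b * X 1 := by
  simp [linForm, Fin.sum_univ_two]

theorem linForm3 (a b c : ℂ) : linForm ![a, b, c] = C a * X 0 + C b * X 1 + C c * X 2 := by
  simp [linForm, Fin.sum_univ_three]

theorem eval_Q2 (T : Finset ℂ) (v : Fin 2 → ℂ) :
    eval v (Q2 T) = v 1 * ∏ t ∈ T, (v 0 - t * v 1) := by
  simp [Q2, map_prod]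

theorem eval_Q3 (T : Finset ℂ) (v : Fin 3 → ℂ) :
    eval v (Q3 T) = v 2 * ∏ t ∈ T, (v 1 - t * v 2) := by
  simp [Q3, map_prod]

theorem ndvd2 (T : Finset ℂ) (t : ℂ) (ht : t ∉ T) : ¬ linForm ![1, -t] ∣ Q2 T := by
  intro h
  have h1 := eval_eq_zero_of_dvd h (v := ![t, 1]) (by rw [mem_hyp2]; simp)
  rw [eval_Q2] at h1
  simp only [Matrix.cons_val_zero, Matrix.cons_val_one, mul_one, one_mul] at h1
  rw [Finset.prod_eq_zero_iff] at h1
  obtain ⟨s, hs, hs'⟩ := h1
  rw [sub_eq_zero] at hs'
  exact ht (hs' ▸ hs)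

theorem ndvd3 (T : Finset ℂ) (t : ℂ) (ht : t ∉ T) : ¬ linForm ![0, 1, -t] ∣ Q3 T := by
  intro h
  have h1 := eval_eq_zero_of_dvd h (v := ![0, t, 1]) (by rw [mem_hyp3]; simp)
  rw [eval_Q3] at h1
  simp only [Matrix.cons_val_one, Matrix.cons_val, mul_one, one_mul] at h1
  rw [Finset.prod_eq_zero_iff] at h1
  obtain ⟨s, hs, hs'⟩ := h1
  rw [sub_eq_zero] at hs'
  exact ht (hs' ▸ hs)

theorem ne2 (t : ℂ) : (![1, -t] : Fin 2 → ℂ) ≠ 0 := by
  intro h; simpa using congrFun h 0
theorem ne2' : (![0, 1] : Fin 2 → ℂ) ≠ 0 := by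
  intro h; simpa using congrFun h 1
theorem ne3 (t : ℂ) : (![0, 1, -t] : Fin 3 → ℂ) ≠ 0 := by
  intro h; simpa using congrFun h 1
theorem ne3' : (![0, 0, 1] : Fin 3 → ℂ) ≠ 0 := by
  intro h; simpa using congrFun h 2

theorem isQ2 (T : Finset ℂ) : IsQ (pen2 T) (Q2 T) := by
  classical
  induction T using Finset.induction_on with
  | empty =>
    rw [pen2_empty]
    have h := IsQ.insert (IsQ.empty 2) ne2' (by
      intro h
      have := eval_eq_zero_of_dvd h (v := 0) (Submodule.zero_mem _)
      simp at this)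
    convert h using 1
    simp [Q2, linForm2]
  | insert t T ht ih =>
    rw [pen2_insert]
    have h := IsQ.insert ih (ne2 t) (ndvd2 T t ht)
    convert h using 1
    rw [linForm2]
    unfold Q2
    rw [Finset.prod_insert ht]
    simp only [map_one, map_neg]
    ring

theorem isQ3 (T : Finset ℂ) : IsQ (pen3 T) (Q3 T) := by
  classical
  induction T using Finset.induction_on with
  | empty =>
    rw [pen3_empty]
    have h := IsQ.insert (IsQ.empty 3) ne3' (by
      intro h
      have := eval_eq_zero_of_dvd h (v := 0) (Submodule.zero_mem _)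
      simp at this)
    convert h using 1
    simp [Q3, linForm3]
  | insert t T ht ih =>
    rw [pen3_insert]
    have h := IsQ.insert ih (ne3 t) (ndvd3 T t ht)
    convert h using 1
    rw [linForm3]
    unfold Q3
    rw [Finset.prod_insert ht]
    simp only [map_one, map_neg, map_zero]
    ring

theorem Q2_hom (T : Finset ℂ) : (Q2 T).IsHomogeneous (T.card + 1) := by
  unfold Q2
  rw [add_comm]
  refine (isHomogeneous_X _ _).mul ?_
  have h : ∀ t ∈ T, ((X 0 : S 2) - C t * X 1).IsHomogeneous ((fun _ => 1) t) := by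
    intro t _
    refine (isHomogeneous_X _ _).sub ?_
    simpa using (isHomogeneous_C (Fin 2) t).mul (isHomogeneous_X ℂ (1 : Fin 2))
  simpa using IsHomogeneous.prod T _ _ h

theorem eTT_hom (T : Finset ℂ) : (∏ t ∈ T, ((X 1 : S 3) - C t * X 2)).IsHomogeneous T.card := by
  have h : ∀ t ∈ T, ((X 1 : S 3) - C t * X 2).IsHomogeneous ((fun _ => 1) t) := by
    intro t _
    refine (isHomogeneous_X _ _).sub ?_
    simpa using (isHomogeneous_C (Fin 3) t).mul (isHomogeneous_X ℂ (2 : Fin 3))
  simpa using IsHomogeneous.prod T _ _ h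

theorem Q3_hom (T : Finset ℂ) : (Q3 T).IsHomogeneous (T.card + 1) := by
  unfold Q3
  rw [add_comm]
  exact (isHomogeneous_X _ _).mul (eTT_hom T)

theorem linForm_cases2 (T : Finset ℂ) {θ : Derivation ℂ (S 2) (S 2)}
    (h0 : (X 1 : S 2) ∣ θ (X 1))
    (h1 : ∀ t ∈ T, (X 0 - C t * X 1 : S 2) ∣ θ (X 0) - C t * θ (X 1)) : θ ∈ logDer (pen2 T) := by
  intro a ha haA
  rcases haA with haA | ⟨t, ht, haA⟩
  · have := logDer_insert (A := ∅) (θ := θ) (b := ![0, 1])
      (fun a _ h => absurd h (Set.notMem_empty _)) ne2' (by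
        rw [der_linForm]
        simpa [linForm2, Fin.sum_univ_two] using h0)
    exact this a ha (Or.inl haA)
  · have := logDer_insert (A := ∅) (θ := θ) (b := ![1, -t])
      (fun a _ h => absurd h (Set.notMem_empty _)) (ne2 t) (by
        rw [der_linForm]
        have h := h1 t (by simpa using ht)
        simpa [linForm2, Fin.sum_univ_two, sub_eq_add_neg] using h)
    exact this a ha (Or.inl haA.symm)

theorem linForm_cases3 (T : Finset ℂ) {θ : Derivation ℂ (S 3) (S 3)}
    (h0 : (X 2 : S 3) ∣ θ (X 2))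
    (h1 : ∀ t ∈ T, (X 1 - C t * X 2 : S 3) ∣ θ (X 1) - C t * θ (X 2)) : θ ∈ logDer (pen3 T) := by
  intro a ha haA
  rcases haA with haA | ⟨t, ht, haA⟩
  · have := logDer_insert (A := ∅) (θ := θ) (b := ![0, 0, 1])
      (fun a _ h => absurd h (Set.notMem_empty _)) ne3' (by
        rw [der_linForm]
        simpa [linForm3, Fin.sum_univ_three] using h0)
    exact this a ha (Or.inl haA)
  · have := logDer_insert (A := ∅) (θ := θ) (b := ![0, 1, -t])
      (fun a _ h => absurd h (Set.notMem_empty _)) (ne3 t) (by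
        rw [der_linForm]
        have h := h1 t (by simpa using ht)
        simpa [linForm3, Fin.sum_univ_three, sub_eq_add_neg] using h)
    exact this a ha (Or.inl haA.symm)

/-- exponents of the planar pencil -/
theorem exp_pen2 (T : Finset ℂ) : IsFreeWithExp (pen2 T) {1, T.card} := by
  have hF := Q2_hom T
  let η : Derivation ℂ (S 2) (S 2) :=
    mkDerivation ℂ (![pderiv 1 (Q2 T), - pderiv 0 (Q2 T)] : Fin 2 → S 2)
  have hη0 : η (X 0) = pderiv 1 (Q2 T) := by simp [η, mkDerivation_X]
  have hη1 : η (X 1) = - pderiv 0 (Q2 T) := by simp [η, mkDerivation_X]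
  have hη : η ∈ logDer (pen2 T) := by
    apply linForm_cases2
    · rw [hη1]
      have : (X 1 : S 2) ∣ Q2 T := dvd_mul_right _ _
      obtain ⟨q, hq⟩ := this
      rw [hq, Derivation.leibniz]
      simp [pderiv_X]
    · intro t ht
      rw [hη0, hη1]
      have : (X 0 - C t * X 1 : S 2) ∣ Q2 T :=
        Dvd.dvd.mul_left (Finset.dvd_prod_of_mem _ ht) _
      obtain ⟨q, hq⟩ := this
      rw [hq, Derivation.leibniz, Derivation.leibniz]
      have e1 : pderiv 1 (X 0 - C t * X 1 : S 2) = - C t := by
        rw [map_sub, pderiv_X, Derivation.leibniz, pderiv_C, pderiv_X]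
        simp
      have e0 : pderiv 0 (X 0 - C t * X 1 : S 2) = 1 := by
        rw [map_sub, pderiv_X, Derivation.leibniz, pderiv_C, pderiv_X]
        simp
      rw [e1, e0]
      refine ⟨pderiv 1 q + C t * pderiv 0 q, ?_⟩
      simp only [smul_eq_mul]
      ring
  have h := saito (isQ2 T) ![euler 2, η] (by
      intro i
      fin_cases i
      · exact euler_mem _
      · exact hη) ![1, T.card] (by
      intro j i
      fin_cases j
      · simp only [Fin.zero_eta, Matrix.cons_val_zero]
        unfold euler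
        rw [mkDerivation_X]
        exact isHomogeneous_X _ _
      · simp only [Fin.mk_one, Matrix.cons_val_one]
        fin_cases i
        · change (η (X 0)).IsHomogeneous T.card
          rw [hη0]
          exact hF.pderiv
        · change (η (X 1)).IsHomogeneous T.card
          rw [hη1]
          exact (hF.pderiv).neg) (-(T.card + 1 : ℕ)) (by
        rw [neg_ne_zero]
        exact Nat.cast_ne_zero.mpr (Nat.succ_ne_zero T.card)) (by
        rw [Matrix.det_fin_two]
        simp only [Matrix.of_apply, Matrix.cons_val_zero, Matrix.cons_val_one, hη0, hη1]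
        have he := hF.sum_X_mul_pderiv
        rw [Fin.sum_univ_two] at he
        unfold euler
        rw [mkDerivation_X, mkDerivation_X, map_neg]
        have h3 : (C ((T.card + 1 : ℕ) : ℂ) : S 2) * Q2 T = (T.card + 1) • Q2 T := by
          rw [nsmul_eq_mul]
          simp
        rw [neg_mul, h3, ← he]
        ring)
  rw [val_map2] at h
  simpa using h

/-- exponents of the pencil in space -/
theorem exp_pen3 (T : Finset ℂ) : IsFreeWithExp (pen3 T) {0, 1, T.card} := by
  have hF := Q3_hom T
  let η : Derivation ℂ (S 3) (S 3) :=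
    mkDerivation ℂ (![0, pderiv 2 (Q3 T), - pderiv 1 (Q3 T)] : Fin 3 → S 3)
  have hη0 : η (X 0) = 0 := by simp [η, mkDerivation_X]
  have hη1 : η (X 1) = pderiv 2 (Q3 T) := by simp [η, mkDerivation_X]
  have hη2 : η (X 2) = - pderiv 1 (Q3 T) := by simp [η, mkDerivation_X]
  let ω : Derivation ℂ (S 3) (S 3) := mkDerivation ℂ (![1, 0, 0] : Fin 3 → S 3)
  have hω0 : ω (X 0) = 1 := by simp [ω, mkDerivation_X]
  have hω1 : ω (X 1) = 0 := by simp [ω, mkDerivation_X]
  have hω2 : ω (X 2) = 0 := by simp [ω, mkDerivation_X]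
  have hω : ω ∈ logDer (pen3 T) := by
    apply linForm_cases3
    · rw [hω2]; exact dvd_zero _
    · intro t _
      rw [hω1, hω2]; simp
  have hη : η ∈ logDer (pen3 T) := by
    apply linForm_cases3
    · rw [hη2]
      have : (X 2 : S 3) ∣ Q3 T := dvd_mul_right _ _
      obtain ⟨q, hq⟩ := this
      rw [hq, Derivation.leibniz]
      simp [pderiv_X]
    · intro t ht
      rw [hη1, hη2]
      have : (X 1 - C t * X 2 : S 3) ∣ Q3 T :=
        Dvd.dvd.mul_left (Finset.dvd_prod_of_mem _ ht) _
      obtain ⟨q, hq⟩ := this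
      rw [hq, Derivation.leibniz, Derivation.leibniz]
      have e1 : pderiv 2 (X 1 - C t * X 2 : S 3) = - C t := by
        rw [map_sub, pderiv_X, Derivation.leibniz, pderiv_C, pderiv_X]
        simp
      have e0 : pderiv 1 (X 1 - C t * X 2 : S 3) = 1 := by
        rw [map_sub, pderiv_X, Derivation.leibniz, pderiv_C, pderiv_X]
        simp
      rw [e1, e0]
      refine ⟨pderiv 2 q + C t * pderiv 1 q, ?_⟩
      simp only [smul_eq_mul]
      ring
  have hp0 : pderiv 0 (Q3 T) = 0 := by
    have : ∀ T : Finset ℂ, pderiv 0 (∏ t ∈ T, (X 1 - C t * X 2 : S 3)) = 0 := by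
      classical
      intro T
      induction T using Finset.induction_on with
      | empty => simp
      | insert t T ht ih =>
        rw [Finset.prod_insert ht, Derivation.leibniz, ih, map_sub, pderiv_X, Derivation.leibniz,
          pderiv_C, pderiv_X]
        simp
    unfold Q3
    rw [Derivation.leibniz, this, pderiv_X]
    simp
  have h := saito (isQ3 T) ![ω, euler 3, η] (by
      intro i
      fin_cases i
      · exact hω
      · exact euler_mem _
      · exact hη) ![0, 1, T.card] (by
      intro j i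
      fin_cases j
      · change (ω (X i)).IsHomogeneous 0
        fin_cases i
        · change (ω (X 0)).IsHomogeneous 0
          rw [hω0]; exact isHomogeneous_one _ _
        · change (ω (X 1)).IsHomogeneous 0
          rw [hω1]; exact isHomogeneous_zero _ _ _
        · change (ω (X 2)).IsHomogeneous 0
          rw [hω2]; exact isHomogeneous_zero _ _ _
      · change (euler 3 (X i)).IsHomogeneous 1
        unfold euler
        rw [mkDerivation_X]
        exact isHomogeneous_X _ _
      · change (η (X i)).IsHomogeneous T.card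
        fin_cases i
        · change (η (X 0)).IsHomogeneous T.card
          rw [hη0]; exact isHomogeneous_zero _ _ _
        · change (η (X 1)).IsHomogeneous T.card
          rw [hη1]; exact hF.pderiv
        · change (η (X 2)).IsHomogeneous T.card
          rw [hη2]; exact (hF.pderiv).neg) (-(T.card + 1 : ℕ)) (by
        rw [neg_ne_zero]
        exact Nat.cast_ne_zero.mpr (Nat.succ_ne_zero T.card)) (by
        rw [Matrix.det_fin_three]
        simp only [Matrix.of_apply, Matrix.cons_val_zero, Matrix.cons_val_one, Matrix.cons_val,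
          hη0, hη1, hη2, hω0, hω1, hω2]
        have he := hF.sum_X_mul_pderiv
        rw [Fin.sum_univ_three, hp0] at he
        unfold euler
        rw [mkDerivation_X, mkDerivation_X, mkDerivation_X, map_neg]
        have h3 : (C ((T.card + 1 : ℕ) : ℂ) : S 3) * Q3 T = (T.card + 1) • Q3 T := by
          rw [nsmul_eq_mul]
          simp
        rw [neg_mul, h3, ← he]
        ring)
  rw [val_map3] at h
  simpa using h

end

end Pool.Agent.RFH
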