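import Pool.Agent.RFH.Defs

namespace Pool.Agent.RFH

open MvPolynomial

noncomputable section

theorem eval_linForm {n : ℕ} (a v : Fin n → ℂ) : eval v (linForm a) = ∑ i, a i * v i := by
  simp [linForm]

theorem eval_eq_zero_of_dvd {n : ℕ} {a v : Fin n → ℂ} {Q : S n} (h : linForm a ∣ Q)
    (hv : v ∈ hyp a) : eval v Q = 0 := by
  obtain ⟨q, rfl⟩ := h
  rw [map_mul, eval_linForm, (mem_hyp a v).mp hv, zero_mul]

theorem linForm_smul {n : ℕ} (c : ℂ) (a : Fin n → ℂ) : linForm (c • a) = C c * linForm a := by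
  unfold linForm
  rw [Finset.mul_sum]
  refine Finset.sum_congr rfl (fun i _ => ?_)
  simp only [Pi.smul_apply, smul_eq_mul, map_mul]
  ring

theorem exists_smul_of_hyp_eq {n : ℕ} {a b : Fin n → ℂ} (ha : a ≠ 0) (hb : b ≠ 0)
    (h : hyp a = hyp b) : ∃ c : ℂ, c ≠ 0 ∧ a = c • b := by
  obtain ⟨i, hi⟩ : ∃ i, b i ≠ 0 := by
    by_contra hcon
    push Not at hcon
    exact hb (funext hcon)
  have key : ∀ j, a j = (a i / b i) * b j := by
    intro j
    have hv : (b i • (Pi.single j (1 : ℂ) : Fin n → ℂ) - b j • (Pi.single i (1 : ℂ) : Fin n → ℂ))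
        ∈ hyp b := by
      rw [mem_hyp]
      simp only [Pi.sub_apply, Pi.smul_apply, smul_eq_mul, mul_sub, Finset.sum_sub_distrib]
      have e : ∀ (u : Fin n → ℂ) (k : Fin n) (c : ℂ),
          ∑ x, u x * (c * (Pi.single k (1 : ℂ) : Fin n → ℂ) x) = u k * c := by
        intro u k c
        rw [Finset.sum_eq_single k]
        · simp
        · intro x _ hx
          simp [Pi.single_apply, hx]
        · simp
      rw [e, e]
      ring
    rw [← h, mem_hyp] at hv
    simp only [Pi.sub_apply, Pi.smul_apply, smul_eq_mul, mul_sub, Finset.sum_sub_distrib] at hv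
    have e : ∀ (u : Fin n → ℂ) (k : Fin n) (c : ℂ),
        ∑ x, u x * (c * (Pi.single k (1 : ℂ) : Fin n → ℂ) x) = u k * c := by
      intro u k c
      rw [Finset.sum_eq_single k]
      · simp
      · intro x _ hx
        simp [Pi.single_apply, hx]
      · simp
    rw [e, e] at hv
    field_simp
    linear_combination hv
  refine ⟨a i / b i, ?_, funext fun j => by rw [key j]; simp⟩
  intro h0
  apply ha
  funext j
  rw [key j, h0, zero_mul]
  rfl

theorem linForm_dvd_iff {n : ℕ} {a b : Fin n → ℂ} (ha : a ≠ 0) (hb : b ≠ 0)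
    (h : hyp a = hyp b) (N : S n) : linForm a ∣ N ↔ linForm b ∣ N := by
  obtain ⟨c, hc, rfl⟩ := exists_smul_of_hyp_eq ha hb h
  rw [linForm_smul]
  have hu : IsUnit (C c : S n) := (isUnit_iff_ne_zero.mpr hc).map C
  exact hu.mul_left_dvd

/-- substitution eliminating one variable -/
theorem prime_linForm {n : ℕ} {a : Fin n → ℂ} (ha : a ≠ 0) : Prime (linForm a) := by
  obtain ⟨i, hi⟩ : ∃ i, a i ≠ 0 := by
    by_contra hcon
    push Not at hcon
    exact ha (funext hcon)
  let ψ : S n →ₐ[ℂ] S n := aeval (fun k => if k = i then X i - C (a i)⁻¹ * linForm a else X k)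
  have h1 : ∀ p : S n, linForm a ∣ p - ψ p := by
    intro p
    induction p using MvPolynomial.induction_on with
    | C c => simp [ψ]
    | add p q hp hq =>
      have := dvd_add hp hq
      rw [map_add]
      convert this using 1
      ring
    | mul_X p k hp =>
      rw [map_mul]
      have h2 : linForm a ∣ X k - ψ (X k) := by
        by_cases hk : k = i
        · subst hk
          simp only [ψ, aeval_X, if_true]
          rw [sub_sub_cancel]
          exact dvd_mul_left _ _
        · simp [ψ, hk]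
      have h3 : p * X k - ψ p * ψ (X k) = (p - ψ p) * X k + ψ p * (X k - ψ (X k)) := by ring
      rw [h3]
      exact dvd_add (Dvd.dvd.mul_right hp _) (Dvd.dvd.mul_left h2 _)
  have h2 : ψ (linForm a) = 0 := by
    have e : linForm a = C (a i) * X i + ∑ k ∈ Finset.univ.erase i, C (a k) * X k := by
      unfold linForm
      rw [← Finset.univ.add_sum_erase _ (Finset.mem_univ i)]
    have e2 : ψ (linForm a) = C (a i) * (X i - C (a i)⁻¹ * linForm a) +
        ∑ k ∈ Finset.univ.erase i, C (a k) * X k := by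
      rw [show ψ (linForm a) = ψ (C (a i) * X i + ∑ k ∈ Finset.univ.erase i, C (a k) * X k) by
        rw [← e], map_add, map_mul, map_sum]
      congr 1
      · simp [ψ]
      · refine Finset.sum_congr rfl (fun k hk => ?_)
        have hk' : k ≠ i := Finset.ne_of_mem_erase hk
        simp [ψ, hk']
    rw [e2, mul_sub, ← mul_assoc, ← map_mul, mul_inv_cancel₀ hi, map_one, one_mul]
    have : C (a i) * X i - linForm a + ∑ k ∈ Finset.univ.erase i, C (a k) * X k =
      (C (a i) * X i + ∑ k ∈ Finset.univ.erase i, C (a k) * X k) - linForm a := by ring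
    rw [this, ← e, sub_self]
  have h3 : ∀ p : S n, linForm a ∣ p ↔ ψ p = 0 := by
    intro p
    constructor
    · rintro ⟨q, rfl⟩
      rw [map_mul, h2, zero_mul]
    · intro h
      have := h1 p
      rwa [h, sub_zero] at this
  refine ⟨?_, ?_, ?_⟩
  · intro h0
    have h4 := congrArg (eval (Pi.single i (1 : ℂ))) h0
    rw [eval_linForm, map_zero, Finset.sum_eq_single i] at h4
    · simp at h4; exact hi h4
    · intro b _ hb; simp [hb]
    · simp
  · intro hu
    have := hu.map ψ
    rw [h2] at this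
    exact not_isUnit_zero this
  · intro p q hpq
    rw [h3, map_mul] at hpq
    rcases mul_eq_zero.mp hpq with h | h
    · left; exact (h3 p).mpr h
    · right; exact (h3 q).mpr h

/-- `Q` is a defining polynomial of the arrangement -/
def IsQ {n : ℕ} (A : Set (Submodule ℂ (Fin n → ℂ))) (Q : S n) : Prop :=
  Q ≠ 0 ∧ (∀ a, a ≠ 0 → hyp a ∈ A → linForm a ∣ Q) ∧
    ∀ N : S n, (∀ a, a ≠ 0 → hyp a ∈ A → linForm a ∣ N) → Q ∣ N

theorem IsQ.empty (n : ℕ) : IsQ (∅ : Set (Submodule ℂ (Fin n → ℂ))) 1 :=
  ⟨one_ne_zero, fun _ _ h => absurd h (Set.notMem_empty _), fun _ _ => one_dvd _⟩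

theorem IsQ.insert {n : ℕ} {A : Set (Submodule ℂ (Fin n → ℂ))} {Q : S n} (h : IsQ A Q)
    {b : Fin n → ℂ} (hb : b ≠ 0) (hbQ : ¬ linForm b ∣ Q) :
    IsQ (insert (hyp b) A) (linForm b * Q) := by
  refine ⟨mul_ne_zero (prime_linForm hb).ne_zero h.1, ?_, ?_⟩
  · intro a ha haA
    rcases haA with haA | haA
    · rw [linForm_dvd_iff ha hb haA]
      exact dvd_mul_right _ _
    · exact Dvd.dvd.mul_left (h.2.1 a ha haA) _
  · intro N hN
    obtain ⟨u, rfl⟩ := h.2.2 N (fun a ha haA => hN a ha (Set.mem_insert_of_mem _ haA))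
    have h1 := hN b hb (Set.mem_insert _ _)
    rcases (prime_linForm hb).dvd_or_dvd h1 with h2 | h2
    · exact absurd h2 hbQ
    · obtain ⟨w, rfl⟩ := h2
      exact ⟨w, by ring⟩

theorem IsQ.notMem {n : ℕ} {A : Set (Submodule ℂ (Fin n → ℂ))} {Q : S n} (h : IsQ A Q)
    {b : Fin n → ℂ} (hb : b ≠ 0) (hbQ : ¬ linForm b ∣ Q) : hyp b ∉ A :=
  fun hmem => hbQ (h.2.1 b hb hmem)

theorem mem_logDer {n : ℕ} {A : Set (Submodule ℂ (Fin n → ℂ))}
    {θ : Derivation ℂ (S n) (S n)} :
    θ ∈ logDer A ↔ ∀ a : Fin n → ℂ, a ≠ 0 → hyp a ∈ A → linForm a ∣ θ (linForm a) := Iff.rfl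

theorem der_linForm {n : ℕ} (θ : Derivation ℂ (S n) (S n)) (a : Fin n → ℂ) :
    θ (linForm a) = ∑ i, C (a i) * θ (X i) := by
  unfold linForm
  rw [map_sum]
  refine Finset.sum_congr rfl (fun i _ => ?_)
  rw [Derivation.leibniz, show (C (a i) : S n) = algebraMap ℂ (S n) (a i) from rfl,
    Derivation.map_algebraMap]
  simp

theorem logDer_insert {n : ℕ} {A : Set (Submodule ℂ (Fin n → ℂ))}
    {θ : Derivation ℂ (S n) (S n)} (h : θ ∈ logDer A) {b : Fin n → ℂ} (hb : b ≠ 0)
    (hθ : linForm b ∣ θ (linForm b)) : θ ∈ logDer (insert (hyp b) A) := by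
  intro a ha haA
  rcases haA with haA | haA
  · obtain ⟨c, hc, rfl⟩ := exists_smul_of_hyp_eq ha hb haA
    rw [linForm_smul]
    have hu : IsUnit (C c : S n) := (isUnit_iff_ne_zero.mpr hc).map C
    rw [hu.mul_left_dvd, show (C c : S n) * linForm b = c • linForm b by
      rw [MvPolynomial.smul_eq_C_mul], Derivation.map_smul, MvPolynomial.smul_eq_C_mul]
    exact Dvd.dvd.mul_left hθ _
  · exact h a ha haA

theorem det_dvd {n : ℕ} (B : Matrix (Fin n) (Fin n) (S n)) {a : Fin n → ℂ} (ha : a ≠ 0)
    (h : ∀ i, linForm a ∣ ∑ j, C (a j) * B i j) : linForm a ∣ B.det := by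
  obtain ⟨i, hi⟩ : ∃ i, a i ≠ 0 := by
    by_contra hcon
    push Not at hcon
    exact ha (funext hcon)
  have h1 := Matrix.det_updateCol_sum B i (fun j => (C (a j) : S n))
  choose w hw using h
  have h2 : (fun k => ∑ j, (C (a j) : S n) • B k j) = linForm a • w := by
    funext k
    rw [Pi.smul_apply, smul_eq_mul, ← hw k]
    rfl
  rw [h2, Matrix.det_updateCol_smul] at h1
  have hu : IsUnit (C (a i) : S n) := (isUnit_iff_ne_zero.mpr hi).map C
  rw [smul_eq_mul] at h1
  have h3 : linForm a ∣ C (a i) * B.det := ⟨_, h1.symm⟩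
  exact (hu.dvd_mul_left).mp h3

theorem saito {n : ℕ} {A : Set (Submodule ℂ (Fin n → ℂ))} {Q : S n} (hQ : IsQ A Q)
    (θ : Fin n → Derivation ℂ (S n) (S n)) (hθ : ∀ i, θ i ∈ logDer A) (d : Fin n → ℕ)
    (hd : ∀ j i, (θ j (X i)).IsHomogeneous (d j)) (c : ℂ) (hc : c ≠ 0)
    (hdet : (Matrix.of fun i j => θ i (X j)).det = C c * Q) :
    IsFreeWithExp A ((Finset.univ : Finset (Fin n)).val.map d) := by
  have hdet0 : (Matrix.of fun i j => θ i (X j)).det ≠ 0 := by
    rw [hdet]
    exact mul_ne_zero (by simpa using hc) hQ.1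
  refine ⟨n, θ, d, ?_, ?_, hd, rfl⟩
  · rw [Fintype.linearIndependent_iff]
    intro g hg
    have h1 : Matrix.vecMul g (Matrix.of fun i j => θ i (X j)) = 0 := by
      funext j
      have h2 := congrArg (fun D : Derivation ℂ (S n) (S n) => D (X j)) hg
      simp only [Derivation.coe_zero, Pi.zero_apply] at h2
      simp only [Matrix.vecMul, dotProduct, Matrix.of_apply, Pi.zero_apply]
      rw [← h2]
      rw [← Derivation.coeFnAddMonoidHom_apply, map_sum, Finset.sum_apply]
      rfl
    have h3 := Matrix.eq_zero_of_vecMul_eq_zero hdet0 h1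
    intro i
    rw [h3]; rfl
  · apply le_antisymm
    · rw [Submodule.span_le]
      rintro _ ⟨i, rfl⟩
      exact hθ i
    · intro η hη
      let N : Matrix (Fin n) (Fin n) (S n) := (Matrix.of fun i j => θ i (X j)).transpose
      let v : Fin n → S n := fun j => η (X j)
      have hNdet : N.det = C c * Q := by rw [Matrix.det_transpose, hdet]
      have h1 : ∀ i, Q ∣ Matrix.cramer N v i := by
        intro i
        apply hQ.2.2
        intro a ha haA
        rw [Matrix.cramer_apply, Matrix.updateCol_transpose, Matrix.det_transpose]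
        apply det_dvd _ ha
        intro k
        by_cases hk : k = i
        · subst hk
          have := hη a ha haA
          rw [der_linForm] at this
          simpa [v] using this
        · have := hθ k a ha haA
          rw [der_linForm] at this
          simpa [Matrix.updateRow_ne hk] using this
      choose u hu using h1
      have h2 := Matrix.mulVec_cramer N v
      have h3 : Matrix.cramer N v = Q • u := by
        funext i
        rw [hu i]; rfl
      rw [h3, Matrix.mulVec_smul, hNdet] at h2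
      have h4 : N.mulVec u = (C c : S n) • v := by
        funext j
        have h5 := congrFun h2 j
        simp only [Pi.smul_apply, smul_eq_mul] at h5 ⊢
        apply mul_left_cancel₀ hQ.1
        rw [h5]; ring
      have h6 : η = ∑ i, (C c⁻¹ * u i) • θ i := by
        apply derivation_ext
        intro j
        have h7 := congrFun h4 j
        simp only [Matrix.mulVec, dotProduct, Pi.smul_apply, smul_eq_mul] at h7
        have h8 : (∑ i, (C c⁻¹ * u i) • θ i) (X j) = ∑ i, (C c⁻¹ * u i) * θ i (X j) := by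
          rw [← Derivation.coeFnAddMonoidHom_apply, map_sum, Finset.sum_apply]
          rfl
        rw [h8]
        have h9 : ∑ i, (C c⁻¹ * u i) * θ i (X j) = C c⁻¹ * ∑ i, N j i * u i := by
          rw [Finset.mul_sum]
          refine Finset.sum_congr rfl (fun i _ => ?_)
          simp only [N, Matrix.transpose_apply, Matrix.of_apply]
          ring
        rw [h9, h7, ← mul_assoc, ← map_mul, inv_mul_cancel₀ hc, map_one, one_mul]
      rw [h6]
      exact Submodule.sum_mem _ (fun i _ => Submodule.smul_mem _ _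
        (Submodule.subset_span ⟨i, rfl⟩))

end

end Pool.Agent.RFH
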